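import Mathlib

set_option autoImplicit false

namespace Pool.Agent.Results.MP_30d25d_nt.Characterisation

/-- The set of representations of `m` as an ordered sum of four integer cubes. -/
abbrev S (m : ℤ) : Set (ℤ × ℤ × ℤ × ℤ) :=
  {p | p.1 ^ 3 + p.2.1 ^ 3 + p.2.2.1 ^ 3 + p.2.2.2 ^ 3 = m}

/-- if `D * n ^ 2` is a square with `n ≠ 0` then `D` is a square -/
lemma isSquare_of_mul_sq {D n : ℤ} (hn : n ≠ 0) (h : IsSquare (D * n ^ 2)) : IsSquare D := by
  obtain ⟨k, hk⟩ := h
  have hd : n ^ 2 ∣ k ^ 2 := ⟨D, by rw [pow_two k, ← hk]; ring⟩
  have hd' : n ∣ k := (Int.pow_dvd_pow_iff (two_ne_zero)).1 hd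
  obtain ⟨j, rfl⟩ := hd'
  refine ⟨j, ?_⟩
  have hn2 : n ^ 2 ≠ 0 := pow_ne_zero _ hn
  apply mul_right_cancel₀ hn2
  rw [hk]; ring

/-- the Pell move preserves the sum of four cubes -/
lemma pell_move (a b c d X Y : ℤ) (hp : X ^ 2 + X + (a + b) * (c + d) * Y ^ 2 = 0) :
    (a + (a - b) * X - (c + d) * (c - d) * Y) ^ 3 + (b - (a - b) * X + (c + d) * (c - d) * Y) ^ 3 +
      (c + (c - d) * X + (a + b) * (a - b) * Y) ^ 3 + (d - (c - d) * X - (a + b) * (a - b) * Y) ^ 3
      = a ^ 3 + b ^ 3 + c ^ 3 + d ^ 3 := by
  linear_combination (3 * ((a + b) * (a - b) ^ 2 + (c + d) * (c - d) ^ 2)) * hp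

/-- Pell move: from one solution with `-(a+b)(c+d)` positive and not a square we get infinitely many. -/
lemma infinite_of_nonsquare {a b c d m : ℤ} (h : a ^ 3 + b ^ 3 + c ^ 3 + d ^ 3 = m)
    (hneg : (a + b) * (c + d) < 0) (hns : ¬ IsSquare (-((a + b) * (c + d))))
    (hne : a ≠ b ∨ c ≠ d) : (S m).Infinite := by
  intro hfin
  have hs0 : a + b ≠ 0 := by rintro h0; rw [h0] at hneg; simp at hneg
  -- the linear functional
  let g : ℤ × ℤ × ℤ × ℤ → ℤ := fun p =>
    (a + b) * (a - b) * (p.1 - p.2.1) + (c + d) * (c - d) * (p.2.2.1 - p.2.2.2)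
  have hgfin : (g '' S m).Finite := hfin.image g
  obtain ⟨B, hB⟩ := hgfin.bddAbove
  obtain ⟨B', hB'⟩ := hgfin.bddBelow
  obtain ⟨N, hN⟩ : ∃ N, N = (a + b) * (a - b) ^ 2 + (c + d) * (c - d) ^ 2 := ⟨_, rfl⟩
  have hN0 : N ≠ 0 := by
    intro hN0
    apply hns
    by_cases hv0 : c - d = 0
    · have : (a + b) * (a - b) ^ 2 = 0 := by rw [hv0] at hN; linarith [hN0]
      have hu0 : a - b = 0 := by
        rcases mul_eq_zero.1 this with h1 | h1
        · exact absurd h1 hs0
        · exact pow_eq_zero_iff (two_ne_zero) |>.1 h1
      exfalso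
      rcases hne with h1 | h1
      · apply h1; linarith
      · apply h1; linarith
    · apply isSquare_of_mul_sq hv0
      refine ⟨(a + b) * (a - b), ?_⟩
      rw [hN0] at hN
      linear_combination (a + b) * hN
  obtain ⟨n, hn⟩ : ∃ n : ℤ, n = |B| + |B'| + 1 := ⟨_, rfl⟩
  have hn0 : 0 < n := by rw [hn]; positivity
  obtain ⟨D, hD⟩ : ∃ D, D = -((a + b) * (c + d)) := ⟨_, rfl⟩
  have hDpos : 0 < D := by rw [hD]; linarith
  have hpos : 0 < D * (2 * n) ^ 2 := by positivity
  have hnsq : ¬ IsSquare (D * (2 * n) ^ 2) := fun hsq =>
    hns (hD ▸ isSquare_of_mul_sq (by positivity) hsq)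
  obtain ⟨X, y, hXy, hy0⟩ := Pell.exists_of_not_isSquare hpos hnsq
  have hXodd : ∃ X1, X = 2 * X1 + 1 := by
    rcases Int.even_or_odd X with he | ho
    · exfalso
      obtain ⟨k, hk⟩ := he
      have : 2 * (2 * k ^ 2 - 2 * D * n ^ 2 * y ^ 2) = 1 := by
        rw [hk] at hXy; linear_combination hXy
      omega
    · exact ho
  obtain ⟨X1, hX1⟩ := hXodd
  have hp : X1 ^ 2 + X1 + (a + b) * (c + d) * (n * y) ^ 2 = 0 := by
    have : 4 * (X1 ^ 2 + X1 + (a + b) * (c + d) * (n * y) ^ 2) = 0 := by
      rw [hX1, hD] at hXy; linear_combination hXy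
    linarith
  have hmem : (a + (a - b) * X1 - (c + d) * (c - d) * (n * y),
      b - (a - b) * X1 + (c + d) * (c - d) * (n * y),
      c + (c - d) * X1 + (a + b) * (a - b) * (n * y),
      d - (c - d) * X1 - (a + b) * (a - b) * (n * y)) ∈ S m := by
    show _ + _ + _ + _ = m
    rw [← h]
    exact pell_move a b c d X1 (n * y) hp
  have hval : g (a + (a - b) * X1 - (c + d) * (c - d) * (n * y),
      b - (a - b) * X1 + (c + d) * (c - d) * (n * y),
      c + (c - d) * X1 + (a + b) * (a - b) * (n * y),
      d - (c - d) * X1 - (a + b) * (a - b) * (n * y)) = N * X := by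
    simp only [g]
    rw [hN, hX1]; ring
  have h1 : N * X ≤ B := hB ⟨_, hmem, hval⟩
  have h2 : B' ≤ N * X := hB' ⟨_, hmem, hval⟩
  have hy1 : 1 ≤ y ^ 2 := by
    have : 0 < y ^ 2 := by positivity
    linarith
  have hXn : n < |X| := by
    apply lt_of_pow_lt_pow_left₀ 2 (abs_nonneg X)
    rw [sq_abs]
    have hX2 : X ^ 2 = 1 + 4 * (D * y ^ 2) * n ^ 2 := by linear_combination hXy
    have hDy : 1 ≤ D * y ^ 2 := by
      have : 0 < D * y ^ 2 := by positivity
      linarith
    rw [hX2]
    nlinarith [mul_le_mul_of_nonneg_right hDy (sq_nonneg n)]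
  have hNX : n < |N * X| := by
    rw [abs_mul]
    have h5 : 1 ≤ |N| := Int.one_le_abs hN0
    have := mul_le_mul_of_nonneg_right h5 (abs_nonneg X)
    linarith
  have h3 : |N * X| ≤ |B| + |B'| := by
    rw [abs_le]
    constructor
    · have := neg_abs_le B'; have := abs_nonneg B; linarith
    · have := le_abs_self B; have := abs_nonneg B'; linarith
  linarith

/-- `T ^ 2 - d ^ 2` is not a square when it lies strictly between consecutive squares. -/
lemma not_isSquare_sub {T d : ℤ} (hd : d ≠ 0) (h : d ^ 2 < 2 * |T| - 1) : ¬ IsSquare (T ^ 2 - d ^ 2) := by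
  rintro ⟨w, hw⟩
  have hd2 : 0 < d ^ 2 := by positivity
  have hT : |w| < |T| := by
    apply lt_of_pow_lt_pow_left₀ 2 (abs_nonneg T)
    rw [sq_abs, sq_abs]; nlinarith
  have hw0 := abs_nonneg w
  have h1 : |w| ≤ |T| - 1 := by linarith [Int.add_one_le_iff.2 hT]
  have h2 : |w| ^ 2 ≤ (|T| - 1) ^ 2 := by
    apply pow_le_pow_left₀ hw0 h1
  rw [sq_abs] at h2
  have h3 : (|T| - 1) ^ 2 = T ^ 2 - 2 * |T| + 1 := by
    rw [sub_sq, sq_abs]; ring
  nlinarith

/-- Criterion with the total sum `e` and the difference `U`, both parities. -/
lemma infinite_of_gap {x y z w m : ℤ} (h : x ^ 3 + y ^ 3 + z ^ 3 + w ^ 3 = m)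
    (he : x + y + z + w ≠ 0) (hgap : (x + y + z + w) ^ 2 < 2 * |x + z - y - w| - 1)
    (hne : x ≠ z ∨ y ≠ w) : (S m).Infinite := by
  have h' : x ^ 3 + z ^ 3 + y ^ 3 + w ^ 3 = m := by linarith
  have hns : ¬ IsSquare ((x + z - y - w) ^ 2 - (x + y + z + w) ^ 2) := not_isSquare_sub he hgap
  have heq : (x + z - y - w) ^ 2 - (x + y + z + w) ^ 2 = (-((x + z) * (y + w))) * 2 ^ 2 := by ring
  refine infinite_of_nonsquare h' ?_ ?_ hne
  · have h1 : 0 < (x + z - y - w) ^ 2 - (x + y + z + w) ^ 2 := by
      have : 2 * |x + z - y - w| - 1 ≤ |x + z - y - w| ^ 2 := by nlinarith [sq_nonneg (|x + z - y - w| - 1)]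
      rw [sq_abs] at this
      linarith
    rw [heq] at h1; linarith
  · intro hsq
    apply hns
    rw [heq]
    exact hsq.mul ⟨2, by norm_num⟩


lemma not_isSquare_of_between {D : ℤ} (r : ℤ) (h1 : r ^ 2 < D) (h2 : D < (r + 1) ^ 2) :
    ¬ IsSquare D := by
  rintro ⟨k, rfl⟩
  have e1 : r < |k| := by
    apply lt_of_pow_lt_pow_left₀ 2 (abs_nonneg k)
    rw [sq_abs]; linarith [pow_two k]
  have e2 : |k| < r + 1 := by
    rcases le_or_gt 0 (r + 1) with h | h
    · apply lt_of_pow_lt_pow_left₀ 2 h
      rw [sq_abs]; linarith [pow_two k]
    · nlinarith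
  linarith [Int.add_one_le_iff.2 e1]

lemma sq_ge {l W : ℤ} (L : ℤ) (h0 : 0 ≤ L) (hW : W ≤ L ^ 2) (h : L ≤ l ∨ l ≤ -L) : W ≤ l ^ 2 := by
  refine le_trans hW ?_
  rcases h with h | h <;> nlinarith

lemma infinite_of_neg {m : ℤ} (h : (S (-m)).Infinite) : (S m).Infinite := by
  have hinj : Function.Injective (fun p : ℤ × ℤ × ℤ × ℤ => (-p.1, -p.2.1, -p.2.2.1, -p.2.2.2)) := by
    rintro ⟨a, b, c, d⟩ ⟨a', b', c', d'⟩ h
    simp only [Prod.mk.injEq, neg_inj] at h
    simp only [Prod.mk.injEq]
    exact h
  refine (h.image hinj.injOn).mono ?_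
  rintro _ ⟨⟨a, b, c, d⟩, hp, rfl⟩
  have hp' : a ^ 3 + b ^ 3 + c ^ 3 + d ^ 3 = -m := hp
  show (-a) ^ 3 + (-b) ^ 3 + (-c) ^ 3 + (-d) ^ 3 = m
  linear_combination -hp'

lemma abs_le_add {u v : ℤ} (h : 0 ≤ u * v) : |v| ≤ |u + v| := by
  apply sq_le_sq.1
  linarith [sq_nonneg u, add_sq u v]

lemma abs_le_sub {u v : ℤ} (h : u * v ≤ 0) : |v| ≤ |u - v| := by
  apply sq_le_sq.1
  linarith [sq_nonneg u, sub_sq u v]

lemma family {σ l X Z m : ℤ} (k A c W : ℤ) (hσ : σ ≠ 0) (hk : 0 < k) (hA : 0 < A) (hc : 0 ≤ c)
    (hX : 12 * A * X = c - σ ^ 2 * l ^ 5 + 6 * A * (σ * l ^ 2))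
    (hZ : 12 * A * k * Z = l * (c - σ ^ 2 * l ^ 5) - 6 * A ^ 2 - 6 * A * k * (σ * k ^ 2))
    (hm : 4 * m = σ * (c * l - σ ^ 2 * k ^ 6 - 3 * A ^ 2))
    (hkW : k ^ 2 < W) (hW : W ≤ l ^ 2)
    (h1 : ∀ t : ℤ, 0 ≤ t →
      6 * A * k * ((W + t - k ^ 2) ^ 2 + 1) < 2 * ((W + t) ^ 3 - c * (W + t) + 6 * A ^ 2))
    (h2 : ∀ t : ℤ, 0 ≤ t → 6 * A * k * (W + t - k ^ 2) ^ 2 ≤ 2 * (W + t) ^ 3) :
    (S m).Infinite := by
  obtain ⟨u, hu⟩ : ∃ u, u = 2 * X - σ * l ^ 2 := ⟨_, rfl⟩
  obtain ⟨v, hv⟩ : ∃ v, v = 2 * Z + σ * k ^ 2 := ⟨_, rfl⟩
  have hu6 : 6 * A * u = c - σ ^ 2 * l ^ 5 := by rw [hu]; linear_combination hX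
  have hv6 : 6 * A * (k * v) = l * (c - σ ^ 2 * l ^ 5) - 6 * A ^ 2 := by
    rw [hv]; linear_combination hZ
  have hkv : k * v = l * u - A := by
    have h6 : (6 * A) ≠ 0 := by positivity
    apply mul_left_cancel₀ h6
    rw [hv6, ← hu6]; ring
  -- the solution
  have hsol : X ^ 3 + (σ * l ^ 2 - X) ^ 3 + Z ^ 3 + (-σ * k ^ 2 - Z) ^ 3 = m := by
    have hX' : 2 * X = u + σ * l ^ 2 := by rw [hu]; ring
    have hZ' : 2 * Z = v - σ * k ^ 2 := by rw [hv]; ring
    have h8 : 8 * (X ^ 3 + (σ * l ^ 2 - X) ^ 3 + Z ^ 3 + (-σ * k ^ 2 - Z) ^ 3) = 8 * m := by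
      have e1 : 8 * (X ^ 3 + (σ * l ^ 2 - X) ^ 3 + Z ^ 3 + (-σ * k ^ 2 - Z) ^ 3)
          = (2 * X) ^ 3 + (2 * (σ * l ^ 2) - (2 * X)) ^ 3 + (2 * Z) ^ 3 + (-2 * (σ * k ^ 2) - (2 * Z)) ^ 3 := by
        ring
      rw [e1, hX', hZ']
      have e2 : 8 * m = 2 * (σ * (c * l - σ ^ 2 * k ^ 6 - 3 * A ^ 2)) := by linarith
      rw [e2]
      linear_combination (-6 * σ * (k * v + (l * u - A))) * hkv + (2 * σ * l) * hu6
    linarith
  -- size of v
  obtain ⟨L, hL⟩ : ∃ L, L = l ^ 2 := ⟨_, rfl⟩
  obtain ⟨t, ht⟩ : ∃ t, t = L - W := ⟨_, rfl⟩
  have ht0 : 0 ≤ t := by rw [ht, hL]; linarith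
  have hWt : W + t = L := by rw [ht]; ring
  have h1' := h1 t ht0
  have h2' := h2 t ht0
  rw [hWt] at h1' h2'
  have hs1 : 1 ≤ σ ^ 2 := by
    have : 0 < σ ^ 2 := by positivity
    linarith
  have hlL : l ≤ L := by
    rw [hL]
    rcases le_or_gt l 0 with h | h
    · nlinarith [sq_nonneg l]
    · nlinarith
  have hcl : c * l ≤ c * L := mul_le_mul_of_nonneg_left hlL hc
  have hl6 : l * (σ ^ 2 * l ^ 5) = σ ^ 2 * L ^ 3 := by rw [hL]; ring
  have hlow : σ ^ 2 * L ^ 3 - c * L + 6 * A ^ 2 ≤ 6 * A * k * (-v) := by
    have : 6 * A * k * (-v) = -(l * (c - σ ^ 2 * l ^ 5) - 6 * A ^ 2) := by rw [← hv6]; ring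
    rw [this]
    have : -(l * (c - σ ^ 2 * l ^ 5) - 6 * A ^ 2) = σ ^ 2 * L ^ 3 - c * l + 6 * A ^ 2 := by
      rw [← hl6]; ring
    rw [this]; linarith
  have hgapv : (σ * (L - k ^ 2)) ^ 2 + 1 < 2 * |v| := by
    have hAk : 0 < 6 * A * k := by positivity
    have h3 : 6 * A * k * ((σ * (L - k ^ 2)) ^ 2 + 1) < 6 * A * k * (2 * (-v)) := by
      have h4 : 0 ≤ (σ ^ 2 - 1) * (2 * L ^ 3 - 6 * A * k * (L - k ^ 2) ^ 2) :=
        mul_nonneg (by linarith) (by linarith)
      nlinarith
    have h5 := lt_of_mul_lt_mul_left h3 hAk.le
    linarith [neg_le_abs v]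
  have heq : X + (σ * l ^ 2 - X) + Z + (-σ * k ^ 2 - Z) = σ * (L - k ^ 2) := by rw [hL]; ring
  have hLk : 0 < L - k ^ 2 := by rw [hL]; linarith
  have he0 : σ * (L - k ^ 2) ≠ 0 := mul_ne_zero hσ hLk.ne'
  have hne0 : σ * (l ^ 2 + k ^ 2) ≠ 0 := mul_ne_zero hσ (by positivity)
  have hX' : X + Z - (σ * l ^ 2 - X) - (-σ * k ^ 2 - Z) = u + v := by rw [hu, hv]; ring
  have hX'' : X + (-σ * k ^ 2 - Z) - (σ * l ^ 2 - X) - Z = u - v := by rw [hu, hv]; ring
  rcases le_total 0 (u * v) with huv | huv
  · refine infinite_of_gap (x := X) (y := σ * l ^ 2 - X) (z := Z) (w := -σ * k ^ 2 - Z) hsol ?_ ?_ ?_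
    · rw [heq]; exact he0
    · rw [heq, hX']
      linarith [abs_le_add huv]
    · by_contra hcon
      push Not at hcon
      obtain ⟨g1, g2⟩ := hcon
      apply hne0
      linear_combination g1 + g2
  · refine infinite_of_gap (x := X) (y := σ * l ^ 2 - X) (z := -σ * k ^ 2 - Z) (w := Z) (by linarith) ?_ ?_ ?_
    · have : X + (σ * l ^ 2 - X) + (-σ * k ^ 2 - Z) + Z = σ * (L - k ^ 2) := by rw [← heq]; ring
      rw [this]; exact he0
    · have : X + (σ * l ^ 2 - X) + (-σ * k ^ 2 - Z) + Z = σ * (L - k ^ 2) := by rw [← heq]; ring
      rw [this, hX'']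
      linarith [abs_le_sub huv]
    · by_contra hcon
      push Not at hcon
      obtain ⟨g1, g2⟩ := hcon
      apply hne0
      linear_combination g1 + g2


/-- If the square of `e = x + y + z + w` lies in a suitable window with respect to
`T = x + z - y - w`, then `T ^ 2 - e ^ 2` lies strictly between two consecutive squares. -/
lemma infinite_of_window {x y z w m : ℤ} (j T e : ℤ) (h : x ^ 3 + y ^ 3 + z ^ 3 + w ^ 3 = m)
    (hT : x + z - y - w = T) (he : x + y + z + w = e)
    (h2 : e ^ 2 < 2 * (j + 1) * T - (j + 1) ^ 2) (h3 : 2 * j * T - j ^ 2 < e ^ 2)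
    (hs : x + y ≠ z + w) : (S m).Infinite := by
  have h' : x ^ 3 + z ^ 3 + y ^ 3 + w ^ 3 = m := by linarith
  have heq : T ^ 2 - e ^ 2 = (-((x + z) * (y + w))) * 2 ^ 2 := by rw [← hT, ← he]; ring
  have hlow : (T - j - 1) ^ 2 < T ^ 2 - e ^ 2 := by nlinarith
  have hns : ¬ IsSquare (T ^ 2 - e ^ 2) :=
    not_isSquare_of_between (T - j - 1) hlow (by nlinarith)
  refine infinite_of_nonsquare h' ?_ ?_ ?_
  · have h4 : 0 < T ^ 2 - e ^ 2 := by nlinarith [sq_nonneg (T - j - 1)]
    rw [heq] at h4; linarith
  · intro hsq
    apply hns
    rw [heq]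
    exact hsq.mul ⟨2, by norm_num⟩
  · by_contra hcon
    push Not at hcon
    obtain ⟨g1, g2⟩ := hcon
    apply hs
    rw [g1, g2]

lemma leaf_0_mod_6 (s : ℤ) : (S (6 * s + 0)).Infinite := by
  refine family (σ := 1) (l := 24 * s + 13)
    1 2 1 3
    (X := (-331776) * s ^ 5 + (-898560) * s ^ 4 + (-973440) * s ^ 3 + (-526992) * s ^ 2 + (-142493) * s + (-15386))
    (Z := (-7962624) * s ^ 6 + (-25878528) * s ^ 5 + (-35043840) * s ^ 4 + (-25309440) * s ^ 3 + (-10281960) * s ^ 2 + (-2227757) * s + (-201118))
    ?_ (by norm_num) (by norm_num) (by norm_num) (by ring) (by ring) (by ring) (by norm_num) ?_ ?_ ?_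
  · norm_num
  · exact sq_ge 2 (by norm_num) (by norm_num) (by omega)
  · intro t ht; linarith [pow_nonneg ht 2, pow_nonneg ht 3]
  · intro t ht; linarith [pow_nonneg ht 2, pow_nonneg ht 3]

lemma leaf_3_mod_6 (s : ℤ) : (S (6 * s + 3)).Infinite := by
  refine family (σ := (-1)) (l := (-24) * s + 55)
    2 1 1 5
    (X := 663552 * s ^ 5 + (-7603200) * s ^ 4 + 34848000 * s ^ 3 + (-79860288) * s ^ 2 + 91507570 * s + (-41941877))
    (Z := (-7962624) * s ^ 6 + 109486080 * s ^ 5 + (-627264000) * s ^ 4 + 1916640000 * s ^ 3 + (-3294225000) * s ^ 2 + 3019706249 * s + (-1153360022))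
    ?_ (by norm_num) (by norm_num) (by norm_num) (by ring) (by ring) (by ring) (by norm_num) ?_ ?_ ?_
  · norm_num
  · exact sq_ge 3 (by norm_num) (by norm_num) (by omega)
  · intro t ht; linarith [pow_nonneg ht 2, pow_nonneg ht 3]
  · intro t ht; linarith [pow_nonneg ht 2, pow_nonneg ht 3]

lemma leaf_1_mod_18 (s : ℤ) : (S (18 * s + 1)).Infinite := by
  refine family (σ := 1) (l := 72 * s + 46663)
    6 1 1 37
    (X := (-161243136) * s ^ 5 + (-522506142720) * s ^ 4 + (-677269559381760) * s ^ 3 + (-438936520130984448) * s ^ 2 + (-142236769714387253094) * s + (-18436651069950603411344))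
    (Z := (-1934917632) * s ^ 6 + (-7524088455168) * s ^ 5 + (-12190852068871680) * s ^ 4 + (-10534476483143688960) * s ^ 3 + (-5120523709718062061880) * s ^ 2 + (-1327438877036521833297257) * s + (-143384908146192634970253884))
    ?_ (by norm_num) (by norm_num) (by norm_num) (by ring) (by ring) (by ring) (by norm_num) ?_ ?_ ?_
  · norm_num
  · exact sq_ge 7 (by norm_num) (by norm_num) (by omega)
  · intro t ht; linarith [pow_nonneg ht 2, pow_nonneg ht 3]
  · intro t ht; linarith [pow_nonneg ht 2, pow_nonneg ht 3]

lemma leaf_7_mod_54 (s : ℤ) : (S (54 * s + 7)).Infinite := by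
  refine family (σ := 1) (l := 216 * s + 46711)
    6 3 1 37
    (X := (-13060694016) * s ^ 5 + (-14122177735680) * s ^ 4 + (-6107972631586560) * s ^ 3 + (-1320877359231642432) * s ^ 2 + (-142822922053393473654) * s + (-6177223622254958894977))
    (Z := (-470184984576) * s ^ 6 + (-610078078181376) * s ^ 5 + (-329830522105674240) * s ^ 4 + (-95103169864679934720) * s ^ 3 + (-15424875581767584828840) * s ^ 2 + (-1334280302407306768407305) * s + (-48090715436533724119655412))
    ?_ (by norm_num) (by norm_num) (by norm_num) (by ring) (by ring) (by ring) (by norm_num) ?_ ?_ ?_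
  · norm_num
  · exact sq_ge 7 (by norm_num) (by norm_num) (by omega)
  · intro t ht; linarith [pow_nonneg ht 2, pow_nonneg ht 3]
  · intro t ht; linarith [pow_nonneg ht 2, pow_nonneg ht 3]

lemma leaf_25_mod_108 (s : ℤ) : (S (108 * s + 25)).Infinite := by
  refine family (σ := 108 * s + 25) (l := 2125764 * s ^ 2 + 984150 * s + 113914)
    3 3 4 10
    (X := (-14064368927918131137158549869694976) * s ^ 12 + (-39067691466439253158773749638041600) * s ^ 11 + (-49739215418649709971168636587162880) * s ^ 10 + (-38379419884342931327130894945840000) * s ^ 9 + (-19989590286598228921507655013941760) * s ^ 8 + (-7403704600258608639535921926744000) * s ^ 7 + (-1999508790347665162383645987287760) * s ^ 6 + (-396740203812293009519038755463416) * s ^ 5 + (-57400827305346217702441334810880) * s ^ 4 + (-5905678416706436770787243584032) * s ^ 3 + (-410135581642113062713032539526) * s ^ 2 + (-17262488277438999587807203716) * s + (-333014410234089716281983661))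
    (Z := (-9965843049895652706216902535067423653888) * s ^ 14 + (-32296713587624800436814035993274058137600) * s ^ 13 + (-48594810201320513017905596780736262192128) * s ^ 12 + (-44995598330330813407380415459057613644800) * s ^ 11 + (-28643416823458785477450457694065133272320) * s ^ 10 + (-13261079074374942869438328995838077760000) * s ^ 9 + (-4604644624818891476071069801994682365760) * s ^ 8 + (-1218192741490449683909972389769242344000) * s ^ 7 + (-246748176060484697531491699833776446320) * s ^ 6 + (-38079788781147189492510742482337356000) * s ^ 5 + (-4407560903345571283057089035156717328) * s ^ 4 + (-371023453321461499542470766789321600) * s ^ 3 + (-21472324176726041867531334529693956) * s ^ 2 + (-764725073822688717349655422020836) * s + (-12645001175802038139321798902931))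
    ?_ (by norm_num) (by norm_num) (by norm_num) (by ring) (by ring) (by ring) (by norm_num) ?_ ?_ ?_
  · omega
  · have h1 : (25 : ℤ) ^ 2 ≤ (108 * s + 25) ^ 2 := sq_ge 25 (by norm_num) (by norm_num) (by omega)
    exact sq_ge 4 (by norm_num) (by norm_num) (Or.inl (by nlinarith))
  · intro t ht; linarith [pow_nonneg ht 2, pow_nonneg ht 3]
  · intro t ht; linarith [pow_nonneg ht 2, pow_nonneg ht 3]

lemma leaf_79_mod_108 (s : ℤ) : (S (108 * s + 79)).Infinite := by
  refine family (σ := 108 * s + 79) (l := 2125764 * s ^ 2 + 3109914 * s + 1137430)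
    3 3 4 10
    (X := (-14064368927918131137158549869694976) * s ^ 12 + (-123453905033948039981725048856211456) * s ^ 11 + (-496673605794714766107540332446358784) * s ^ 10 + (-1211026400158879818387973256821338240) * s ^ 9 + (-1993150703428727435524795066754100480) * s ^ 8 + (-2332729343446766897881656840862072896) * s ^ 7 + (-1990744839996353355930298284109263696) * s ^ 6 + (-1248169281258319431679962495271073160) * s ^ 5 + (-570635008736313538801933085514853440) * s ^ 4 + (-185515851225417348638874211394643072) * s ^ 3 + (-40710612034772056729750942440642618) * s ^ 2 + (-5414402276048419941223851298259820) * s + (-330046457190515260696779774592561))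
    (Z := (-9965843049895652706216902535067423653888) * s ^ 14 + (-102057614936894369380332353738746023714816) * s ^ 13 + (-485246377906007814923631363409801528212480) * s ^ 12 + (-1419796233267189698165556763357887096732672) * s ^ 11 + (-2856029142528750112062281841210733605254400) * s ^ 10 + (-4178272365026111704553397439798043307391488) * s ^ 9 + (-4584503587348951390921172402330697969573696) * s ^ 8 + (-3832558303151295157192797706428709421945280) * s ^ 7 + (-2453022461407859409396588873025152208507632) * s ^ 6 + (-1196231302035060712867737027927296632239840) * s ^ 5 + (-437512291472090954407855590640061659242000) * s ^ 4 + (-116375846138258118089364994919595268320000) * s ^ 3 + (-21281799254549588274710986265182818971268) * s ^ 2 + (-2394973226237646123585683915129771785304) * s + (-125134913934069257677488103972753745266))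
    ?_ (by norm_num) (by norm_num) (by norm_num) (by ring) (by ring) (by ring) (by norm_num) ?_ ?_ ?_
  · omega
  · have h1 : (29 : ℤ) ^ 2 ≤ (108 * s + 79) ^ 2 := sq_ge 29 (by norm_num) (by norm_num) (by omega)
    exact sq_ge 4 (by norm_num) (by norm_num) (Or.inl (by nlinarith))
  · intro t ht; linarith [pow_nonneg ht 2, pow_nonneg ht 3]
  · intro t ht; linarith [pow_nonneg ht 2, pow_nonneg ht 3]

lemma leaf_43_mod_54 (s : ℤ) : (S (54 * s + 43)).Infinite := by
  refine family (σ := 1) (l := 54 * s + 232)
    3 3 4 10
    (X := (-12754584) * s ^ 5 + (-273987360) * s ^ 4 + (-2354261760) * s ^ 3 + (-10114604622) * s ^ 2 + (-21727659792) * s + (-18669676711))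
    (Z := (-229582512) * s ^ 6 + (-5918126976) * s ^ 5 + (-63565067520) * s ^ 4 + (-364125818880) * s ^ 3 + (-1173294305280) * s ^ 2 + (-2016327991294) * s + (-1443790413517))
    ?_ (by norm_num) (by norm_num) (by norm_num) (by ring) (by ring) (by ring) (by norm_num) ?_ ?_ ?_
  · norm_num
  · exact sq_ge 4 (by norm_num) (by norm_num) (by omega)
  · intro t ht; linarith [pow_nonneg ht 2, pow_nonneg ht 3]
  · intro t ht; linarith [pow_nonneg ht 2, pow_nonneg ht 3]

lemma leaf_8_mod_18 (s : ℤ) : (S (18 * s + 8)).Infinite := by
  refine family (σ := 1) (l := 24 * s + 15)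
    1 2 3 3
    (X := (-331776) * s ^ 5 + (-1036800) * s ^ 4 + (-1296000) * s ^ 3 + (-809712) * s ^ 2 + (-252765) * s + (-31528))
    (Z := (-7962624) * s ^ 6 + (-29859840) * s ^ 5 + (-46656000) * s ^ 4 + (-38880000) * s ^ 3 + (-18225000) * s ^ 2 + (-4556247) * s + (-474609))
    ?_ (by norm_num) (by norm_num) (by norm_num) (by ring) (by ring) (by ring) (by norm_num) ?_ ?_ ?_
  · norm_num
  · exact sq_ge 2 (by norm_num) (by norm_num) (by omega)
  · intro t ht; linarith [pow_nonneg ht 2, pow_nonneg ht 3]
  · intro t ht; linarith [pow_nonneg ht 2, pow_nonneg ht 3]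

lemma leaf_2_mod_108 (s : ℤ) : (S (108 * s + 2)).Infinite := by
  rcases eq_or_ne s (-14) with h14 | h14
  · subst h14
    exact infinite_of_nonsquare (a := -11) (b := -6) (c := -3) (d := 4) (by norm_num) (by norm_num)
      (not_isSquare_of_between 4 (by norm_num) (by norm_num)) (by norm_num)
  refine family (σ := 2) (l := 54 * s + 757)
    3 6 4 20
    (X := (-25509168) * s ^ 5 + (-1788003720) * s ^ 4 + (-50130326520) * s ^ 3 + (-702752907744) * s ^ 2 + (-4925777264259) * s + (-13810419615593))
    (Z := (-459165024) * s ^ 6 + (-38620880352) * s ^ 5 + (-1353518816040) * s ^ 4 + (-25299104783760) * s ^ 3 + (-265991976684810) * s ^ 2 + (-1491525380373341) * s + (-3484829360934008))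
    ?_ (by norm_num) (by norm_num) (by norm_num) (by ring) (by ring) (by ring) (by norm_num) ?_ ?_ ?_
  · norm_num
  · exact sq_ge 5 (by norm_num) (by norm_num) (by omega)
  · intro t ht; linarith [pow_nonneg ht 2, pow_nonneg ht 3]
  · intro t ht; linarith [pow_nonneg ht 2, pow_nonneg ht 3]

lemma leaf_56_mod_108 (s : ℤ) : (S (108 * s + 56)).Infinite := by
  refine family (σ := (-108) * s + (-56)) (l := 162 * s ^ 2 + 168 * s + 45)
    1 6 72 20
    (X := (-18075490334784) * s ^ 12 + (-112469717638656) * s ^ 11 + (-321552807142176) * s ^ 10 + (-558555885095040) * s ^ 9 + (-656537704780320) * s ^ 8 + (-550123194087936) * s ^ 7 + (-336940388991504) * s ^ 6 + (-151990436055960) * s ^ 5 + (-50115133403460) * s ^ 4 + (-11779367599512) * s ^ 3 + (-1873456381242) * s ^ 2 + (-181029457710) * s + (-8037281699))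
    (Z := (-2928229434235008) * s ^ 14 + (-21256776633705984) * s ^ 13 + (-71799864385392000) * s ^ 12 + (-149568062279021568) * s ^ 11 + (-214666373191776480) * s ^ 10 + (-224553306674616192) * s ^ 9 + (-176549236338511296) * s ^ 8 + (-105983979496012800) * s ^ 7 + (-48815361540079992) * s ^ 6 + (-17167168283035680) * s ^ 5 + (-4537613557503000) * s ^ 4 + (-874138388760000) * s ^ 3 + (-116020336331088) * s ^ 2 + (-9496555424778) * s + (-361675124930))
    ?_ (by norm_num) (by norm_num) (by norm_num) (by ring) (by ring) (by ring) (by norm_num) ?_ ?_ ?_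
  · omega
  · have h1 : (52 : ℤ) ^ 2 ≤ ((-108) * s + (-56)) ^ 2 := sq_ge 52 (by norm_num) (by norm_num) (by omega)
    exact sq_ge 5 (by norm_num) (by norm_num) (Or.inl (by nlinarith))
  · intro t ht; linarith [pow_nonneg ht 2, pow_nonneg ht 3]
  · intro t ht; linarith [pow_nonneg ht 2, pow_nonneg ht 3]

lemma leaf_20_mod_54 (s : ℤ) : (S (54 * s + 20)).Infinite := by
  refine family (σ := (-1)) (l := (-216) * s + 757)
    3 6 1 19
    (X := 6530347008 * s ^ 5 + (-114432238080) * s ^ 4 + 802085224320 * s ^ 3 + (-2811011665968) * s ^ 2 + 4925777509527 * s + (-3452605333685))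
    (Z := (-470184984576) * s ^ 6 + 9886945370112 * s ^ 5 + (-86625204226560) * s ^ 4 + 404785676540160 * s ^ 3 + (-1063967906739240) * s ^ 2 + 1491525380373341 * s + (-871207340233496))
    ?_ (by norm_num) (by norm_num) (by norm_num) (by ring) (by ring) (by ring) (by norm_num) ?_ ?_ ?_
  · norm_num
  · exact sq_ge 5 (by norm_num) (by norm_num) (by omega)
  · intro t ht; linarith [pow_nonneg ht 2, pow_nonneg ht 3]
  · intro t ht; linarith [pow_nonneg ht 2, pow_nonneg ht 3]

lemma leaf_92_mod_108 (s : ℤ) : (S (108 * s + 92)).Infinite := by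
  refine family (σ := 108 * s + 92) (l := 1062882 * s ^ 2 + 1810836 * s + 771296)
    3 6 8 20
    (X := (-219755764498720799018102341713984) * s ^ 12 + (-2246392259320257056629490604187392) * s ^ 11 + (-10524778206305376966401173364875584) * s ^ 10 + (-29885254875913769894277001156821120) * s ^ 9 + (-57280308145993627613283496725066240) * s ^ 8 + (-78071367936572811889769884870996992) * s ^ 7 + (-77589979384476525378699642907862016) * s ^ 6 + (-56653468246692182216862100316351016) * s ^ 5 + (-30163016490284856668628838518904680) * s ^ 4 + (-11419868496393521961356039090780736) * s ^ 3 + (-2918446956322723037400627575725344) * s ^ 2 + (-452021569238902954403092726341120) * s + (-32088436274253075400859393145287))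
    (Z := (-77858148827309786767319551055214247296) * s ^ 14 + (-928530515644213012558403534806629171456) * s ^ 13 + (-5141314008302511348533532819961533218688) * s ^ 12 + (-17518593368352953387949687433323169132032) * s ^ 11 + (-41039074404240232785937445548193421132288) * s ^ 10 + (-69918757773930562388042167577112859066368) * s ^ 9 + (-89341169549565081214133826994502531647488) * s ^ 8 + (-86978271116551825616360854492351273918464) * s ^ 7 + (-64831569286174413207131806329299221241856) * s ^ 6 + (-36818280747061967165282721239416452808704) * s ^ 5 + (-15682029231085405684114060378546352160768) * s ^ 4 + (-4857791097983245353345790553855914672128) * s ^ 3 + (-1034543205100746572031150210326445647418) * s ^ 2 + (-135583107952270745113106011420671015914) * s + (-8249894181528766688495994016905143551))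
    ?_ (by norm_num) (by norm_num) (by norm_num) (by ring) (by ring) (by ring) (by norm_num) ?_ ?_ ?_
  · omega
  · have h1 : (16 : ℤ) ^ 2 ≤ (108 * s + 92) ^ 2 := sq_ge 16 (by norm_num) (by norm_num) (by omega)
    exact sq_ge 5 (by norm_num) (by norm_num) (Or.inl (by nlinarith))
  · intro t ht; linarith [pow_nonneg ht 2, pow_nonneg ht 3]
  · intro t ht; linarith [pow_nonneg ht 2, pow_nonneg ht 3]

lemma leaf_38_mod_540 (s : ℤ) : (S (540 * s + 38)).Infinite := by
  refine family (σ := (-1)) (l := (-432) * s + 137)
    3 6 5 20
    (X := 208971104256 * s ^ 5 + (-331354644480) * s ^ 4 + 210164751360 * s ^ 3 + (-66649563072) * s ^ 2 + 10568320014 * s + (-670311113))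
    (Z := (-30091839012864) * s ^ 6 + 57258082566144 * s ^ 5 + (-45395586293760) * s ^ 4 + 19195047290880 * s ^ 3 + (-4565488678560) * s ^ 2 + 579140693474 * s + (-30610445598))
    ?_ (by norm_num) (by norm_num) (by norm_num) (by ring) (by ring) (by ring) (by norm_num) ?_ ?_ ?_
  · norm_num
  · exact sq_ge 5 (by norm_num) (by norm_num) (by omega)
  · intro t ht; linarith [pow_nonneg ht 2, pow_nonneg ht 3]
  · intro t ht; linarith [pow_nonneg ht 2, pow_nonneg ht 3]

lemma leaf_254_mod_540 (s : ℤ) : (S (540 * s + 254)).Infinite := by
  refine family (σ := (-1)) (l := (-432) * s + 29)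
    3 12 5 87
    (X := 104485552128 * s ^ 5 + (-35070382080) * s ^ 4 + 4708523520 * s ^ 3 + (-316174752) * s ^ 2 + 10621743 * s + (-142859))
    (Z := (-15045919506432) * s ^ 6 + 6060162023424 * s ^ 5 + (-1017041080320) * s ^ 4 + 91031454720 * s ^ 3 + (-4583180880) * s ^ 2 + 123066889 * s + (-1376903))
    ?_ (by norm_num) (by norm_num) (by norm_num) (by ring) (by ring) (by ring) (by norm_num) ?_ ?_ ?_
  · norm_num
  · exact sq_ge 10 (by norm_num) (by norm_num) (by omega)
  · intro t ht; linarith [pow_nonneg ht 2, pow_nonneg ht 3]
  · intro t ht; linarith [pow_nonneg ht 2, pow_nonneg ht 3]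

lemma leaf_146_mod_1080 (s : ℤ) : (S (1080 * s + 146)).Infinite := by
  refine family (σ := (-540) * s + (-73)) (l := 42515280 * s ^ 2 + 11494872 * s + 777053)
    3 12 5 87
    (X := (-281287378558362622743170997393899520000000) * s ^ 12 + (-456310636328010476894477395772325888000000) * s ^ 11 + (-339278213553535163682203782394647756800000) * s ^ 10 + (-152887155280400346501829547819079475200000) * s ^ 9 + (-46504329893517024926567699005715074560000) * s ^ 8 + (-10059046986635321791179351136126591180800) * s ^ 7 + (-1586538737232041015578307579785164241920) * s ^ 6 + (-183846148205797572220959117554672474112) * s ^ 5 + (-15534196261772130941523028973940101040) * s ^ 4 + (-933392045451484915430360954088203280) * s ^ 3 + (-37857049808421577217216262001272306) * s ^ 2 + (-930570078082426299359814470790363) * s + (-10484227483218870059407269024884))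
    (Z := (-3986337219958261082486761014026969461555200000000) * s ^ 14 + (-7544512294069153382039758808028819980943360000000) * s ^ 13 + (-6629438601776094757148716416633889636761600000000) * s ^ 12 + (-3584859133742280207583523079386985276044083200000) * s ^ 11 + (-1332733346901329250286310358634334647918387200000) * s ^ 10 + (-360341980471269908548027632932473784492494848000) * s ^ 9 + (-73071975084790822729159229749668751614304358400) * s ^ 8 + (-11289914271173621294299163204549061634446336000) * s ^ 7 + (-1335517776781745787008243945594292727816190208) * s ^ 6 + (-120368407605283788938131548851225576276729472) * s ^ 5 + (-8136539656220270229647824407005580562985520) * s ^ 4 + (-400006826122979825698003019906569320086640) * s ^ 3 + (-13519819308801217714709286391512465283470) * s ^ 2 + (-281205707940888887209089409708116213817) * s + (-2715600139505890873049012110947439454))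
    ?_ (by norm_num) (by norm_num) (by norm_num) (by ring) (by ring) (by ring) (by norm_num) ?_ ?_ ?_
  · omega
  · have h1 : (73 : ℤ) ^ 2 ≤ ((-540) * s + (-73)) ^ 2 := sq_ge 73 (by norm_num) (by norm_num) (by omega)
    exact sq_ge 10 (by norm_num) (by norm_num) (Or.inl (by nlinarith))
  · intro t ht; linarith [pow_nonneg ht 2, pow_nonneg ht 3]
  · intro t ht; linarith [pow_nonneg ht 2, pow_nonneg ht 3]

lemma leaf_686_mod_1080 (s : ℤ) : (S (1080 * s + 686)).Infinite := by
  refine family (σ := (-540) * s + (-343)) (l := 42515280 * s ^ 2 + 54010152 * s + 17153309)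
    3 12 5 87
    (X := (-281287378558362622743170997393899520000000) * s ^ 12 + (-2144034907678186213353503380135723008000000) * s ^ 11 + (-7490228459570576061864150916141782220800000) * s ^ 10 + (-15858952382913192347649115079994036019200000) * s ^ 9 + (-22665111579547148902675042235809347816960000) * s ^ 8 + (-23034503460972024994089051286753653078220800) * s ^ 7 + (-17069736535701439129387363501963699380894720) * s ^ 6 + (-9293544108684293035513263090900913026819072) * s ^ 5 + (-3689460632238662545256618755855313740409520) * s ^ 4 + (-1041554558402132265137562196476627062083440) * s ^ 3 + (-198474676511078474404872653190788674780626) * s ^ 2 + (-22921572055552497378495205103258488579569) * s + (-1213291914314874694146984300678916029563))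
    (Z := (-3986337219958261082486761014026969461555200000000) * s ^ 14 + (-35448872833776980959447085906217606211829760000000) * s ^ 13 + (-146357940267276031366980961737934774763274240000000) * s ^ 12 + (-371857823986848218953398744473979423225770803200000) * s ^ 11 + (-649546732348400376265948871496814523929999564800000) * s ^ 10 + (-825165998817630875568822430898957329417588174848000) * s ^ 9 + (-786201107985550714621334891780005408839109763174400) * s ^ 8 + (-570724883464624629694396047711026702102551381401600) * s ^ 7 + (-317202215700941089642927630133975240609980107979008) * s ^ 6 + (-134321782344120177360027117635597836692511940800896) * s ^ 5 + (-42659728242831701863664369686872343875008408274480) * s ^ 4 + (-9853423893708829690018561603875520963715877832080) * s ^ 3 + (-1564692830375915575964675876832247050123353222670) * s ^ 2 + (-152903629649058170448946933852406321777171731051) * s + (-6937323704481522974994282515469950734458432823))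
    ?_ (by norm_num) (by norm_num) (by norm_num) (by ring) (by ring) (by ring) (by norm_num) ?_ ?_ ?_
  · omega
  · have h1 : (197 : ℤ) ^ 2 ≤ ((-540) * s + (-343)) ^ 2 := sq_ge 197 (by norm_num) (by norm_num) (by omega)
    exact sq_ge 10 (by norm_num) (by norm_num) (Or.inl (by nlinarith))
  · intro t ht; linarith [pow_nonneg ht 2, pow_nonneg ht 3]
  · intro t ht; linarith [pow_nonneg ht 2, pow_nonneg ht 3]

lemma leaf_470_mod_540 (s : ℤ) : (S (540 * s + 470)).Infinite := by
  refine family (σ := (-270) * s + (-235)) (l := 10628820 * s ^ 2 + 18502020 * s + 8051825)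
    3 6 5 20
    (X := (-137347352811700499386313963571240000000) * s ^ 12 + (-1434516796033316326923723619521840000000) * s ^ 11 + (-6867086325079568039960262668788860000000) * s ^ 10 + (-19923035725128346625900639836988100000000) * s ^ 9 + (-39015966987223636476660828472844887500000) * s ^ 8 + (-54333387516019607877570724243685790000000) * s ^ 7 + (-55171917628334087489491334010558502500000) * s ^ 6 + (-41160048511952850629775862044471042474000) * s ^ 5 + (-22390333660491819844795013183967881628750) * s ^ 4 + (-8661294372399626497034811566937858700500) * s ^ 3 + (-2261564027365083270202054605463508338875) * s ^ 2 + (-357891277118776406168329537284852915000) * s + (-25958217349722703637743855129048341710))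
    (Z := (-486613430170686167295747194095089045600000000) * s ^ 14 + (-5929474760227990705196326920640159111200000000) * s ^ 13 + (-33545459924443208031676973123957961525000000000) * s ^ 12 + (-116787935768509433295014476249372386632400000000) * s ^ 11 + (-279534224343205098876187115042871541929750000000) * s ^ 10 + (-486596931514150848245427288744124890724350000000) * s ^ 9 + (-635279847467478992635571982449209356377512500000) * s ^ 8 + (-631919199386259710147304488112252515133750000000) * s ^ 7 + (-481253830881397220003984099980310192341978125000) * s ^ 6 + (-279246415884698740077033409107213212331421875000) * s ^ 5 + (-121524082331751143042156630841417291062402343750) * s ^ 4 + (-38462230463233844542612649474870892536132812500) * s ^ 3 + (-8369111520482361570475479704318334417114011775) * s ^ 2 + (-1120652462985269431251808745299822083129453310) * s + (-69670341137310336072638526520684034587531381))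
    ?_ (by norm_num) (by norm_num) (by norm_num) (by ring) (by ring) (by ring) (by norm_num) ?_ ?_ ?_
  · omega
  · have h1 : (35 : ℤ) ^ 2 ≤ ((-270) * s + (-235)) ^ 2 := sq_ge 35 (by norm_num) (by norm_num) (by omega)
    exact sq_ge 5 (by norm_num) (by norm_num) (Or.inl (by nlinarith))
  · intro t ht; linarith [pow_nonneg ht 2, pow_nonneg ht 3]
  · intro t ht; linarith [pow_nonneg ht 2, pow_nonneg ht 3]

lemma leaf_362_mod_11880 (s : ℤ) : (S (11880 * s + 362)).Infinite := by
  refine family (σ := 5940 * s + 181) (l := 631384340400 * s ^ 2 + 38478304920 * s + 586243539)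
    11 12 99 132
    (X := (-24585521760543451577582354485291693694906647344397056000000000000) * s ^ 12 + (-8989857451835080273823042751187467795511319534011852800000000000) * s ^ 11 + (-1506633518256191956889381014739555276703650824242696960000000000) * s ^ 10 + (-153030677394845097838869765110237940917714340348631680000000000) * s ^ 9 + (-10491876006133230851378551473704762056824228437510472000000000) * s ^ 8 + (-511523114201436596793915331973575905740846779542756480000000) * s ^ 7 + (-18184618057080611136639707803197325638566422308691344000000) * s ^ 6 + (-474951786388722634264687483636653555092314929492249600000) * s ^ 5 + (-9045272904248004389971223469968262994210185996766050000) * s ^ 4 + (-122498645955202141228527187272493519334486328827850000) * s ^ 3 + (-1119810860227290848785586636957087553320855142358350) * s ^ 2 + (-6204033267990066560949892692246527804501095405755) * s + (-15753788280029790745748467463427790789332150022))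
    (Z := (-1411173949106415810895561301215897956832497488465231530751078400000000000000) * s ^ 14 + (-602005856403309371180025646006916737813728726560757020020746240000000000000) * s ^ 13 + (-119235671786620368441940383037764890004385898317405110406351104000000000000) * s ^ 12 + (-14533102097612083887134950833003870500770215693385516407527270400000000000) * s ^ 11 + (-1217820131302049846172727923692124553515685665597462411850861440000000000) * s ^ 10 + (-74217321281615950523372941402094096869974537143487540992951232000000000) * s ^ 9 + (-3392256359986487440494151797522827335687027728487064626201435200000000) * s ^ 8 + (-118133410870425673468901053162044625851702795483060529811713920000000) * s ^ 7 + (-3149727106408803205577004105461576718985488641998119818218692000000) * s ^ 6 + (-63984355616134899537071423968467486823568306247187603983961200000) * s ^ 5 + (-974845826483265045848352948192496826862128762185492815298590000) * s ^ 4 + (-10801781173888045557147676796341455408824637244263311279274000) * s ^ 3 + (-82286296431983186196368756249134475883885501602216888094750)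 * s ^ 2 + (-385750317107667333866866183858373348273144908396630272915) * s + (-839596053994671595656093707983663298219468866244637449))
    ?_ (by norm_num) (by norm_num) (by norm_num) (by ring) (by ring) (by ring) (by norm_num) ?_ ?_ ?_
  · omega
  · have h1 : (181 : ℤ) ^ 2 ≤ (5940 * s + 181) ^ 2 := sq_ge 181 (by norm_num) (by norm_num) (by omega)
    exact sq_ge 12 (by norm_num) (by norm_num) (Or.inl (by nlinarith))
  · intro t ht; linarith [pow_nonneg ht 2, pow_nonneg ht 3]
  · intro t ht; linarith [pow_nonneg ht 2, pow_nonneg ht 3]

lemma leaf_6302_mod_11880 (s : ℤ) : (S (11880 * s + 6302)).Infinite := by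
  refine family (σ := 5940 * s + 3151) (l := 631384340400 * s ^ 2 + 669862645320 * s + 177671481099)
    11 12 99 132
    (X := (-24585521760543451577582354485291693694906647344397056000000000000) * s ^ 12 + (-156502988015095789739317169662937629964951203600394188800000000000) * s ^ 11 + (-456611958552316084493024965153583574117975589443859311360000000000) * s ^ 10 + (-807398586646353077030867361013157273122649414025144132480000000000) * s ^ 9 + (-963679146415576659515186177542243069327697978139015077832000000000) * s ^ 8 + (-817926731415084176786656381482523205474307716350129324164480000000) * s ^ 7 + (-506201176066034141290806246157467699451674315578087932683024000000) * s ^ 6 + (-230164488571747456957584745228813697311383848836998587781801600000) * s ^ 5 + (-76309796243602380434506850983554441189895392847529414834530050000) * s ^ 4 + (-17991183536643209507308274571177459349520282075330641367143950000) * s ^ 3 + (-2863142390147961708845485631347159442537468222284376607420208350) * s ^ 2 + (-276148199312127219725544466928762941475880552162754548186676605) * s + (-12207393042236976621313798762729927622086654397535335068101862))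
    (Z := (-1411173949106415810895561301215897956832497488465231530751078400000000000000) * s ^ 14 + (-10480223500148220047448954754518202435641211145817377735278295040000000000000) * s ^ 13 + (-36136481080579090978986126684744402203732940483546343065128235264000000000000) * s ^ 12 + (-76677476017023786428297316551517826633773431498700612718424252774400000000000) * s ^ 11 + (-111856818023535853779356902029695223398554045290869513232714064544640000000000) * s ^ 10 + (-118673681344945044844543803083305908056754777662667699161169842586432000000000) * s ^ 9 + (-94429487353789295346890749703521593953275121776998624643154298545179200000000) * s ^ 8 + (-57248160587731525901134594584363348825417410728048133531397722036142720000000) * s ^ 7 + (-26572446929675354812121791582838333437112098025521167962767013623999812000000) * s ^ 6 + (-9397281736982248323023586203245790733719251024188274503379811824176517200000) * s ^ 5 + (-2492494507884731388233204531795475257880019659805483060136526862198696590000) * s ^ 4 + (-480798909977001844247729328934200313100239954416137833415763162176309454000)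 * s ^ 3 + (-63762515377315613559344088715344353898981011238660642089339756803390140750) * s ^ 2 + (-5203721470031029070074795532403467999468100305025192531510283340779743165) * s + (-197173236561079190950241770674569084544139081025526912459828323434968719))
    ?_ (by norm_num) (by norm_num) (by norm_num) (by ring) (by ring) (by ring) (by norm_num) ?_ ?_ ?_
  · omega
  · have h1 : (2789 : ℤ) ^ 2 ≤ (5940 * s + 3151) ^ 2 := sq_ge 2789 (by norm_num) (by norm_num) (by omega)
    exact sq_ge 12 (by norm_num) (by norm_num) (Or.inl (by nlinarith))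
  · intro t ht; linarith [pow_nonneg ht 2, pow_nonneg ht 3]
  · intro t ht; linarith [pow_nonneg ht 2, pow_nonneg ht 3]

lemma leaf_1442_mod_11880 (s : ℤ) : (S (11880 * s + 1442)).Infinite := by
  refine family (σ := 5940 * s + 721) (l := 631384340400 * s ^ 2 + 153275457720 * s + 9302323659)
    11 12 99 132
    (X := (-24585521760543451577582354485291693694906647344397056000000000000) * s ^ 12 + (-35810426645155209267549247644232951826318571182445004800000000000) * s ^ 11 + (-23906775566751336727575526212449765087618596182471125760000000000) * s ^ 10 + (-9672718958964924121555781770420119619336368157913009280000000000) * s ^ 9 + (-2641678170519314971181041047555738858343725000976667592000000000) * s ^ 8 + (-513037026591295233149837565574531055642060851832620452480000000) * s ^ 7 + (-72651455490316190419437735766765566132767100056071225104000000) * s ^ 6 + (-7558686784977460210147906819893872091671216399307482553600000) * s ^ 5 + (-573423103256476423574441962373503399524714081813750094050000) * s ^ 4 + (-30934385152834687369011961739309106141071164121452126050000) * s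 ^ 3 + (-1126449075881788264356691512189739357193945354916511708350) * s ^ 2 + (-24859803612021321612137832641223220618732795040272675455) * s + (-251457890171208603818686629465019026049106159252165077))
    (Z := (-1411173949106415810895561301215897956832497488465231530751078400000000000000) * s ^ 14 + (-2398045427993293130501649120281695955600543711880142604613027840000000000000) * s ^ 13 + (-1891993248930067301253839108571945117931001430123391252235399424000000000000) * s ^ 12 + (-918604129673079830405650168028613215066943512122646238181542758400000000000) * s ^ 11 + (-306626656276334649464210857760484282980407501227614599540108755840000000000) * s ^ 10 + (-74436976162658152479971383809895562130533250130908709280541373632000000000) * s ^ 9 + (-13552792884275226788818478695634856476841625679566944291514057243200000000) * s ^ 8 + (-1880050730429893566227375849714698750528354769654485021794914651520000000) * s ^ 7 + (-199676263437963694168153876211908488720527248044399797698101547332000000) * s ^ 6 + (-16157865990466163867915909512625810673736334182169933841437706913200000)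 * s ^ 5 + (-980624695490658352148541663164309360188154938174329098819065624590000) * s ^ 4 + (-43283159208539470156076418010306285474054884027838805975217218034000) * s ^ 3 + (-1313432567347258800967856259396257169352494632901339200138142636750) * s ^ 2 + (-24526932955590644069177192287994980811623452771213219865696559415) * s + (-212649334634714305084266034507245744273376092121440253205976464))
    ?_ (by norm_num) (by norm_num) (by norm_num) (by ring) (by ring) (by ring) (by norm_num) ?_ ?_ ?_
  · omega
  · have h1 : (721 : ℤ) ^ 2 ≤ (5940 * s + 721) ^ 2 := sq_ge 721 (by norm_num) (by norm_num) (by omega)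
    exact sq_ge 12 (by norm_num) (by norm_num) (Or.inl (by nlinarith))
  · intro t ht; linarith [pow_nonneg ht 2, pow_nonneg ht 3]
  · intro t ht; linarith [pow_nonneg ht 2, pow_nonneg ht 3]

lemma leaf_7382_mod_11880 (s : ℤ) : (S (11880 * s + 7382)).Infinite := by
  refine family (σ := 5940 * s + 3691) (l := 631384340400 * s ^ 2 + 784659798120 * s + 243786137619)
    11 12 99 132
    (X := (-24585521760543451577582354485291693694906647344397056000000000000) * s ^ 12 + (-183323557208415918733043374555983113995758455248827340800000000000) * s ^ 11 + (-626525231164071938729205237263043946098330418868470076160000000000) * s ^ 10 + (-1297701811578550653571750316286393609279242504799806494080000000000) * s ^ 9 + (-1814324767634953236028064053455522539485061521619597518152000000000) * s ^ 8 + (-1803817566970399540813875437049599089744083269425778620740480000000) * s ^ 7 + (-1307666511732212468082063152420994288760001088122609291792784000000) * s ^ 6 + (-696478657264587758527093395840925968421759277342782177517385600000) * s ^ 5 + (-270486397726057106317693800582044987407813327300168113185218050000)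 * s ^ 4 + (-74699984587946708350802111871713820734143321897117593327258150000) * s ^ 3 + (-13925133490784773615212452277278309952046051343529995525008858350) * s ^ 2 + (-1573237456847152372130847535520050940703040340605695307920946305) * s + (-81464919378662445294275246637383337638326112495695093701364267))
    (Z := (-1411173949106415810895561301215897956832497488465231530751078400000000000000) * s ^ 14 + (-12276263071738203806770578228792981653428026131136763319870576640000000000000) * s ^ 13 + (-49583495873057432347388577993064647347273853419928335506807113984000000000000) * s ^ 12 + (-123240864153464619078458881870276712092742190199693809190722049382400000000000) * s ^ 11 + (-210593532218554752771971142030745197748762682236759270328952772103040000000000) * s ^ 10 + (-261717416640546455790805289938642143367538004623098547204709806240832000000000) * s ^ 9 + (-243939137582339092823306609979499483873899102825810337020648133053787200000000) * s ^ 8 + (-173233161485888857114366163690478604435197719144424175798584908539912320000000) * s ^ 7 + (-94188240600769595892293061665649392289181988742650998767802386985466052000000)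 * s ^ 6 + (-39017822229044183613167644427479456255825719988502240637847546017763789200000) * s ^ 5 + (-12122456384592599610025577821062002468990346094701343700652487738950802590000) * s ^ 4 + (-2739148240959236305456848732027280460270566693900300358589702079951880214000) * s ^ 3 + (-425513306292686131521580913157354028649854101125964684434806132252131822750) * s ^ 2 + (-40677793668711710200071332417054595292880088599191098207615475795060141665) * s + (-1805456186069758441877931293600572851481205473145225506691154950933056484))
    ?_ (by norm_num) (by norm_num) (by norm_num) (by ring) (by ring) (by ring) (by norm_num) ?_ ?_ ?_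
  · omega
  · have h1 : (2249 : ℤ) ^ 2 ≤ (5940 * s + 3691) ^ 2 := sq_ge 2249 (by norm_num) (by norm_num) (by omega)
    exact sq_ge 12 (by norm_num) (by norm_num) (Or.inl (by nlinarith))
  · intro t ht; linarith [pow_nonneg ht 2, pow_nonneg ht 3]
  · intro t ht; linarith [pow_nonneg ht 2, pow_nonneg ht 3]

lemma leaf_3062_mod_5940 (s : ℤ) : (S (5940 * s + 3062)).Infinite := by
  refine family (σ := 2) (l := 270 * s + 1035653)
    15 6 44 226
    (X := (-79716150000) * s ^ 5 + (-1528856849925000) * s ^ 4 + (-11728630986632415000) * s ^ 3 + (-44988118026662298045600) * s ^ 2 + (-86281628516049793946893455) * s + (-66190983272246308430884864340))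
    (Z := (-1434890700000) * s ^ 6 + (-33023307958380000) * s ^ 5 + (-316673036639075205000) * s ^ 4 + (-1619572248959842732266000) * s ^ 3 + (-4659207939866688903331888050) * s ^ 2 + (-7148626193402601426373896080947) * s + (-4570059359923447145079262097447165))
    ?_ (by norm_num) (by norm_num) (by norm_num) (by ring) (by ring) (by ring) (by norm_num) ?_ ?_ ?_
  · norm_num
  · exact sq_ge 16 (by norm_num) (by norm_num) (by omega)
  · intro t ht; linarith [pow_nonneg ht 2, pow_nonneg ht 3]
  · intro t ht; linarith [pow_nonneg ht 2, pow_nonneg ht 3]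

lemma leaf_4682_mod_5940 (s : ℤ) : (S (5940 * s + 4682)).Infinite := by
  refine family (σ := 5940 * s + 4682) (l := 9134142187500 * s ^ 2 + 14399344687500 * s + 5674893251423)
    15 6 44 226
    (X := (-31158693025807598982081926285760995955672115087509155273437500000000000) * s ^ 12 + (-294717173225921572594156724989763602150417864322662353515625000000000000) * s ^ 11 + (-1277653523188714529483952645189470341212804463505744934082031250000000000) * s ^ 10 + (-3356887651834998861765340792081717971295829853415489196777343750000000000) * s ^ 9 + (-5953389388595858672205972326959434234436698702044995307922363281250000000) * s ^ 8 + (-7508085957551407137024513232200311442980002876062888336181640625000000000) * s ^ 7 + (-6904321245028945729493922933742181626283099367372210615651855468750000000) * s ^ 6 + (-4664651092241286391613863330101760013987519632738322131813549804687500000) * s ^ 5 + (-2297968898766719049560967695865612680816858841033139476161573902734375000) * s ^ 4 + (-805019856642626517832845945081466147158027151840176371221315605750000000) * s ^ 3 + (-190358735798077275303911941501736604283054161913533524085444867144705900)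 * s ^ 2 + (-27280673431493745338187959760836994898386941504999083855834443227722410) * s + (-1791920777305014857247427225637347499843684187915492313793488591305065))
    (Z := (-18973862164959414408021105297868979580048103089211508631706237792968750000000000000) * s ^ 14 + (-209376888415616110373226836711231628537540919409366324543952941894531250000000000000) * s ^ 13 + (-1072721691103136958714449899998578414608275939880266878753900527954101562500000000000) * s ^ 12 + (-3382143405889013007145903138544457270824739146283082254230976104736328125000000000000) * s ^ 11 + (-7331108993691557339690437463479178293485350477488157085025012493133544921875000000000) * s ^ 10 + (-11556987309248461937957672666206297685629802350726475053157508373260498046875000000000) * s ^ 9 + (-13664094591391237411327297034654881462355092950937484626752273403358459472656250000000) * s ^ 8 + (-12308858273574819776008123606319448979461978271705837188418037741546630859375000000000) * s ^ 7 + (-8489278641797656944626896321571077006411898596503338139376273215510442016601562500000) * s ^ 6 + (-4460920606162293350319313918177472064252973555220743884246786277797837377929687500000)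 * s ^ 5 + (-1758083356738839790619101364615456405545644804355299243544967871631071499112671875000) * s ^ 4 + (-503908556856668642774724205186378537918741066888308352435884669159611004467081250000) * s ^ 3 + (-99297132289717597301935882839084582806552217052168728340838974227431543759161516380) * s ^ 2 + (-12041159631717761825448782119254063130818726298456343776389506681010820437265279678) * s + (-677930608414192351376544965633246614456644851908738716653638393268939897039971008))
    ?_ (by norm_num) (by norm_num) (by norm_num) (by ring) (by ring) (by ring) (by norm_num) ?_ ?_ ?_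
  · omega
  · have h1 : (1258 : ℤ) ^ 2 ≤ (5940 * s + 4682) ^ 2 := sq_ge 1258 (by norm_num) (by norm_num) (by omega)
    exact sq_ge 16 (by norm_num) (by norm_num) (Or.inl (by nlinarith))
  · intro t ht; linarith [pow_nonneg ht 2, pow_nonneg ht 3]
  · intro t ht; linarith [pow_nonneg ht 2, pow_nonneg ht 3]

lemma leaf_2522_mod_5940 (s : ℤ) : (S (5940 * s + 2522)).Infinite := by
  refine family (σ := (-2970) * s + (-1261)) (l := 20095112812500 * s ^ 2 + 17063930812500 * s + 3622494405737)
    15 66 5 2450
    (X := (-36495553967267924535732918619986139342959634959697723388671875000000000) * s ^ 12 + (-185943004253433748846703880322434431157463029026985168457031250000000000) * s ^ 11 + (-434211348845163164020546598825134142823492217494249343872070312500000000) * s ^ 10 + (-614523581317137553362251654918695201873911612800359725952148437500000000) * s ^ 9 + (-587056239521136019069700917317595752576110684696915765762329101562500000) * s ^ 8 + (-398802918894493344400999889892817496452090719091132429504394531250000000) * s ^ 7 + (-197543959935081741855202402765272096593945989771594055785620117187500000)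 * s ^ 6 + (-71891178516531479292148505664805466431053001884876978173655761718750000) * s ^ 5 + (-19077183531988703881574641548096574761943496811276448021507880097656250) * s ^ 4 + (-3599899505327403332733024198401772406535232243113488624977911442187500) * s ^ 3 + (-458532654388845909339082389543052260724684592981569986955103919107025) * s ^ 2 + (-35396980563218964030886188558516586027233952699238004337787085103980) * s + (-1252401585775519907229594780457797453548064494873617972171471577243))
    (Z := (-48892151608462058397219312469233552485541232809929642826318740844726562500000000000) * s ^ 14 + (-290620217001949218499834930078063682013382129301851149648427963256835937500000000000) * s ^ 13 + (-802043302616068860991700855630640477152843882972265959970653057098388671875000000000) * s ^ 12 + (-1362123373326637162125668190496674165251678768749251818212866783142089843750000000000) * s ^ 11 + (-1590405161120248176637146188936468841728441675648776170313833832740783691406250000000) * s ^ 10 + (-1350505662325934793245096068556295113589658104149708609750647187232971191406250000000)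 * s ^ 9 + (-860094767978696450129382254973405889085565018810700025010428744376754760742187500000) * s ^ 8 + (-417346609997311465583999522211587149483293568460972558400447870976867675781250000000) * s ^ 7 + (-155047076080481828577045193672986265265968883448731149304466350414672449951171875000) * s ^ 6 + (-43886501237227468039637566305371059850008894689728820115778964934415715087890625000) * s ^ 5 + (-9316646142057721334477856383139780948203596323492491218645875886942028834678906250) * s ^ 4 + (-1438419441777793876030387797633041609327534753876847265474639417538609241908437500) * s ^ 3 + (-152680716921748014641341927680863852267617147189221620134172599228082100007852245) * s ^ 2 + (-9973083871958718434670404374793830118264774202363667402357254011383630440136262) * s + (-302454515880531227908125620950252397817902417969295878621771708113800475602768))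
    ?_ (by norm_num) (by norm_num) (by norm_num) (by ring) (by ring) (by ring) (by norm_num) ?_ ?_ ?_
  · omega
  · have h1 : (1261 : ℤ) ^ 2 ≤ ((-2970) * s + (-1261)) ^ 2 := sq_ge 1261 (by norm_num) (by norm_num) (by omega)
    exact sq_ge 50 (by norm_num) (by norm_num) (Or.inl (by nlinarith))
  · intro t ht; linarith [pow_nonneg ht 2, pow_nonneg ht 3]
  · intro t ht; linarith [pow_nonneg ht 2, pow_nonneg ht 3]

lemma leaf_5222_mod_5940 (s : ℤ) : (S (5940 * s + 5222)).Infinite := by
  refine family (σ := (-2970) * s + (-2611)) (l := 20095112812500 * s ^ 2 + 35332215187500 * s + 15530709405737)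
    15 66 5 2450
    (X := (-36495553967267924535732918619986139342959634959697723388671875000000000) * s ^ 12 + (-385009662256713337223428890976904282119061037898063659667968750000000000) * s ^ 11 + (-1861593015120530879195878527073480926014802384806871414184570312500000000) * s ^ 10 + (-5455240586535988431170935632994203216351857661834955215454101562500000000) * s ^ 9 + (-10790631190901443742843164695928152253919145718590500970840454101562500000) * s ^ 8 + (-15178094567477204702913591439020665436858483108717646330261230468750000000) * s ^ 7 + (-15567341999295929121612855480202022486365091742868895447387182617187500000) * s ^ 6 + (-11730542557941977485328151139942236910965674464988034179349681152343750000) * s ^ 5 + (-6445380181295915479758855025538562173942109461751860554804064032441406250) * s ^ 4 + (-2518352062114326626810019070537673848653104048468442502759841759489062500) * s ^ 3 + (-664183559084294044049317922781931176956994016677065254380163784028482025) * s ^ 2 + (-106163653075607364227277924187349967024776268884244518638754379884434230) * s + (-7777589736791810953729035548283184759655467100606028050106993350307518))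
    (Z := (-48892151608462058397219312469233552485541232809929642826318740844726562500000000000) * s ^ 14 + (-601752090873980499209412373064095379648644519910494331270456314086914062500000000000) * s ^ 13 + (-3438597848613133936041749705823383159336104437463286699049174785614013671875000000000) * s ^ 12 + (-12091823546030990524030015432722851837234262808384981929364800453186035156250000000000) * s ^ 11 + (-29233103036793714948730789678365414115708612540095677041352270722389221191406250000000) * s ^ 10 + (-51399078809733315244333262945230443114094598918069898155361188292503356933593750000000) * s ^ 9 + (-67779290292754828319192765812556344628253930236621728059861150103629684448242187500000) * s ^ 8 + (-68098788635366032167563904864159951966703776565571300146088965505849304199218750000000) * s ^ 7 + (-52383904039781045366856058353326702182045137140818471591607221759814086512451171875000) * s ^ 6 + (-30701318397306805748317299361714963677939704984962558029098315621354730448974609375000) * s ^ 5 + (-13495141808647848496026434335929496232180404907378262341653975011002227087428428906250)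 * s ^ 4 + (-4314149405116232159333105235843674310461734097853405448610498930985713175384861562500) * s ^ 3 + (-948168695128996746921772154620272206123422549073305938381166057932049567001782852245) * s ^ 2 + (-128239754639276988700902822114642365009342538974692069286219001966666481787344291712) * s + (-8052765738610409102805141125613285889947576277008993480031516666685259584716381853))
    ?_ (by norm_num) (by norm_num) (by norm_num) (by ring) (by ring) (by ring) (by norm_num) ?_ ?_ ?_
  · omega
  · have h1 : (359 : ℤ) ^ 2 ≤ ((-2970) * s + (-2611)) ^ 2 := sq_ge 359 (by norm_num) (by norm_num) (by omega)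
    exact sq_ge 50 (by norm_num) (by norm_num) (Or.inl (by nlinarith))
  · intro t ht; linarith [pow_nonneg ht 2, pow_nonneg ht 3]
  · intro t ht; linarith [pow_nonneg ht 2, pow_nonneg ht 3]

lemma leaf_3602_mod_5940 (s : ℤ) : (S (5940 * s + 3602)).Infinite := by
  have hm2 : (2338 : ℤ) ^ 2 ≤ (5940 * s + 3602) ^ 2 := sq_ge 2338 (by norm_num) (by norm_num) (by omega)
  refine infinite_of_window (x := 9861320700 * s ^ 2 + 11959576935 * s + 3626073139)
    (y := (-9861320700) * s ^ 2 + (-11959936305) * s + (-3626291060))
    (z := 36158175900 * s ^ 2 + 43852454305 * s + 13296009138)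
    (w := (-36158175900) * s ^ 2 + (-43852427575) * s + (-13295992929))
    0 (92038993200 * s ^ 2 + 111624395120 * s + 33844366266) ((-332640) * s + (-201712))
    (by ring) (by ring) (by ring) (by nlinarith)
    (by nlinarith) (fun h => ?_)
  have h1 : (-386100) * s + (-234130) = 0 := by linear_combination h
  omega

lemma leaf_4142_mod_5940 (s : ℤ) : (S (5940 * s + 4142)).Infinite := by
  have hm2 : (1798 : ℤ) ^ 2 ≤ (5940 * s + 4142) ^ 2 := sq_ge 1798 (by norm_num) (by norm_num) (by omega)
  refine infinite_of_window (x := 9861320700 * s ^ 2 + 13752544335 * s + 4794805924)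
    (y := (-9861320700) * s ^ 2 + (-13752903705) * s + (-4795056515))
    (z := 36158175900 * s ^ 2 + 50426668105 * s + 17581423793)
    (w := (-36158175900) * s ^ 2 + (-50426641375) * s + (-17581405154))
    0 (92038993200 * s ^ 2 + 128358757520 * s + 44752691386) ((-332640) * s + (-231952))
    (by ring) (by ring) (by ring) (by nlinarith)
    (by nlinarith) (fun h => ?_)
  have h1 : (-386100) * s + (-269230) = 0 := by linear_combination h
  omega

lemma leaf_1982_mod_5940 (s : ℤ) : (S (5940 * s + 1982)).Infinite := by
  have hm2 : (1982 : ℤ) ^ 2 ≤ (5940 * s + 1982) ^ 2 := sq_ge 1982 (by norm_num) (by norm_num) (by omega)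
  refine infinite_of_window (x := 3944528280 * s ^ 2 + 2632162083 * s + 439106827)
    (y := (-3944528280) * s ^ 2 + (-2632521453) * s + (-439226738))
    (z := 14463270360 * s ^ 2 + 9651933181 * s + 1610282667)
    (w := (-14463270360) * s ^ 2 + (-9651906451) * s + (-1610273748))
    1 (36815597280 * s ^ 2 + 24568523168 * s + 4098889980) ((-332640) * s + (-110992))
    (by ring) (by ring) (by ring) (by nlinarith)
    (by nlinarith) (fun h => ?_)
  have h1 : (-386100) * s + (-128830) = 0 := by linear_combination h
  omega

lemma leaf_5762_mod_5940 (s : ℤ) : (S (5940 * s + 5762)).Infinite := by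
  have hm2 : (178 : ℤ) ^ 2 ≤ (5940 * s + 5762) ^ 2 := sq_ge 178 (by norm_num) (by norm_num) (by omega)
  refine infinite_of_window (x := 3944528280 * s ^ 2 + 7652470803 * s + 3711490018)
    (y := (-3944528280) * s ^ 2 + (-7652830173) * s + (-3711838619))
    (z := 14463270360 * s ^ 2 + 28059731821 * s + 13609448804)
    (w := (-14463270360) * s ^ 2 + (-28059705091) * s + (-13609422875))
    1 (36815597280 * s ^ 2 + 71424737888 * s + 34642200316) ((-332640) * s + (-322672))
    (by ring) (by ring) (by ring) (by nlinarith)
    (by nlinarith) (fun h => ?_)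
  have h1 : (-386100) * s + (-374530) = 0 := by linear_combination h
  omega

lemma leaf_902_mod_5940 (s : ℤ) : (S (5940 * s + 902)).Infinite := by
  have hm2 : (902 : ℤ) ^ 2 ≤ (5940 * s + 902) ^ 2 := sq_ge 902 (by norm_num) (by norm_num) (by omega)
  refine infinite_of_window (x := 245700 * s ^ 2 + 73405 * s + 5481)
    (y := (-245700) * s ^ 2 + (-75835) * s + (-5850))
    (z := 737100 * s ^ 2 + 223995 * s + 17020)
    (w := (-737100) * s ^ 2 + (-223725) * s + (-16979))
    1 (1965600 * s ^ 2 + 596960 * s + 45330) ((-2160) * s + (-328))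
    (by ring) (by ring) (by ring) (by nlinarith)
    (by nlinarith) (fun h => ?_)
  have h1 : (-2700) * s + (-410) = 0 := by linear_combination h
  omega

lemma res_0_mod_6 {m : ℤ} (h : m % 6 = 0) : (S m).Infinite := by
  have := leaf_0_mod_6 (m / 6)
  rwa [show 6 * (m / 6) + 0 = m by omega] at this

lemma res_1_mod_18 {m : ℤ} (h : m % 18 = 1) : (S m).Infinite := by
  have := leaf_1_mod_18 (m / 18)
  rwa [show 18 * (m / 18) + 1 = m by omega] at this

lemma res_2_mod_108 {m : ℤ} (h : m % 108 = 2) : (S m).Infinite := by
  have := leaf_2_mod_108 (m / 108)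
  rwa [show 108 * (m / 108) + 2 = m by omega] at this

lemma res_3_mod_6 {m : ℤ} (h : m % 6 = 3) : (S m).Infinite := by
  have := leaf_3_mod_6 (m / 6)
  rwa [show 6 * (m / 6) + 3 = m by omega] at this

lemma res_7_mod_54 {m : ℤ} (h : m % 54 = 7) : (S m).Infinite := by
  have := leaf_7_mod_54 (m / 54)
  rwa [show 54 * (m / 54) + 7 = m by omega] at this

lemma res_8_mod_18 {m : ℤ} (h : m % 18 = 8) : (S m).Infinite := by
  have := leaf_8_mod_18 (m / 18)
  rwa [show 18 * (m / 18) + 8 = m by omega] at this

lemma res_20_mod_54 {m : ℤ} (h : m % 54 = 20) : (S m).Infinite := by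
  have := leaf_20_mod_54 (m / 54)
  rwa [show 54 * (m / 54) + 20 = m by omega] at this

lemma res_25_mod_108 {m : ℤ} (h : m % 108 = 25) : (S m).Infinite := by
  have := leaf_25_mod_108 (m / 108)
  rwa [show 108 * (m / 108) + 25 = m by omega] at this

lemma res_38_mod_540 {m : ℤ} (h : m % 540 = 38) : (S m).Infinite := by
  have := leaf_38_mod_540 (m / 540)
  rwa [show 540 * (m / 540) + 38 = m by omega] at this

lemma res_43_mod_54 {m : ℤ} (h : m % 54 = 43) : (S m).Infinite := by
  have := leaf_43_mod_54 (m / 54)
  rwa [show 54 * (m / 54) + 43 = m by omega] at this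

lemma res_56_mod_108 {m : ℤ} (h : m % 108 = 56) : (S m).Infinite := by
  have := leaf_56_mod_108 (m / 108)
  rwa [show 108 * (m / 108) + 56 = m by omega] at this

lemma res_79_mod_108 {m : ℤ} (h : m % 108 = 79) : (S m).Infinite := by
  have := leaf_79_mod_108 (m / 108)
  rwa [show 108 * (m / 108) + 79 = m by omega] at this

lemma res_92_mod_108 {m : ℤ} (h : m % 108 = 92) : (S m).Infinite := by
  have := leaf_92_mod_108 (m / 108)
  rwa [show 108 * (m / 108) + 92 = m by omega] at this

lemma res_146_mod_1080 {m : ℤ} (h : m % 1080 = 146) : (S m).Infinite := by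
  have := leaf_146_mod_1080 (m / 1080)
  rwa [show 1080 * (m / 1080) + 146 = m by omega] at this

lemma res_254_mod_540 {m : ℤ} (h : m % 540 = 254) : (S m).Infinite := by
  have := leaf_254_mod_540 (m / 540)
  rwa [show 540 * (m / 540) + 254 = m by omega] at this

lemma res_362_mod_11880 {m : ℤ} (h : m % 11880 = 362) : (S m).Infinite := by
  have := leaf_362_mod_11880 (m / 11880)
  rwa [show 11880 * (m / 11880) + 362 = m by omega] at this

lemma res_470_mod_540 {m : ℤ} (h : m % 540 = 470) : (S m).Infinite := by
  have := leaf_470_mod_540 (m / 540)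
  rwa [show 540 * (m / 540) + 470 = m by omega] at this

lemma res_686_mod_1080 {m : ℤ} (h : m % 1080 = 686) : (S m).Infinite := by
  have := leaf_686_mod_1080 (m / 1080)
  rwa [show 1080 * (m / 1080) + 686 = m by omega] at this

lemma res_902_mod_5940 {m : ℤ} (h : m % 5940 = 902) : (S m).Infinite := by
  have := leaf_902_mod_5940 (m / 5940)
  rwa [show 5940 * (m / 5940) + 902 = m by omega] at this

lemma res_1442_mod_11880 {m : ℤ} (h : m % 11880 = 1442) : (S m).Infinite := by
  have := leaf_1442_mod_11880 (m / 11880)
  rwa [show 11880 * (m / 11880) + 1442 = m by omega] at this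

lemma res_1982_mod_5940 {m : ℤ} (h : m % 5940 = 1982) : (S m).Infinite := by
  have := leaf_1982_mod_5940 (m / 5940)
  rwa [show 5940 * (m / 5940) + 1982 = m by omega] at this

lemma res_2522_mod_5940 {m : ℤ} (h : m % 5940 = 2522) : (S m).Infinite := by
  have := leaf_2522_mod_5940 (m / 5940)
  rwa [show 5940 * (m / 5940) + 2522 = m by omega] at this

lemma res_3062_mod_5940 {m : ℤ} (h : m % 5940 = 3062) : (S m).Infinite := by
  have := leaf_3062_mod_5940 (m / 5940)
  rwa [show 5940 * (m / 5940) + 3062 = m by omega] at this

lemma res_3602_mod_5940 {m : ℤ} (h : m % 5940 = 3602) : (S m).Infinite := by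
  have := leaf_3602_mod_5940 (m / 5940)
  rwa [show 5940 * (m / 5940) + 3602 = m by omega] at this

lemma res_4142_mod_5940 {m : ℤ} (h : m % 5940 = 4142) : (S m).Infinite := by
  have := leaf_4142_mod_5940 (m / 5940)
  rwa [show 5940 * (m / 5940) + 4142 = m by omega] at this

lemma res_4682_mod_5940 {m : ℤ} (h : m % 5940 = 4682) : (S m).Infinite := by
  have := leaf_4682_mod_5940 (m / 5940)
  rwa [show 5940 * (m / 5940) + 4682 = m by omega] at this

lemma res_5222_mod_5940 {m : ℤ} (h : m % 5940 = 5222) : (S m).Infinite := by
  have := leaf_5222_mod_5940 (m / 5940)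
  rwa [show 5940 * (m / 5940) + 5222 = m by omega] at this

lemma res_5762_mod_5940 {m : ℤ} (h : m % 5940 = 5762) : (S m).Infinite := by
  have := leaf_5762_mod_5940 (m / 5940)
  rwa [show 5940 * (m / 5940) + 5762 = m by omega] at this

lemma res_6302_mod_11880 {m : ℤ} (h : m % 11880 = 6302) : (S m).Infinite := by
  have := leaf_6302_mod_11880 (m / 11880)
  rwa [show 11880 * (m / 11880) + 6302 = m by omega] at this

lemma res_7382_mod_11880 {m : ℤ} (h : m % 11880 = 7382) : (S m).Infinite := by
  have := leaf_7382_mod_11880 (m / 11880)
  rwa [show 11880 * (m / 11880) + 7382 = m by omega] at this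

lemma hard_class {m : ℤ} (h : m % 108 = 38) : (S m).Infinite := by
  have h' : m % 540 = 38 ∨ m % 540 = 146 ∨ m % 540 = 254 ∨ m % 540 = 362 ∨ m % 540 = 470 := by omega
  rcases h' with h | h | h | h | h
  · exact res_38_mod_540 h
  · have h' : m % 1080 = 146 ∨ m % 1080 = 686 := by omega
    rcases h' with h | h
    · exact res_146_mod_1080 h
    · exact res_686_mod_1080 h
  · exact res_254_mod_540 h
  · have h' : m % 5940 = 362 ∨ m % 5940 = 902 ∨ m % 5940 = 1442 ∨ m % 5940 = 1982 ∨ m % 5940 = 2522 ∨ m % 5940 = 3062 ∨ m % 5940 = 3602 ∨ m % 5940 = 4142 ∨ m % 5940 = 4682 ∨ m % 5940 = 5222 ∨ m % 5940 = 5762 := by omega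
    rcases h' with h | h | h | h | h | h | h | h | h | h | h
    · have h' : m % 11880 = 362 ∨ m % 11880 = 6302 := by omega
      rcases h' with h | h
      · exact res_362_mod_11880 h
      · exact res_6302_mod_11880 h
    · exact res_902_mod_5940 h
    · have h' : m % 11880 = 1442 ∨ m % 11880 = 7382 := by omega
      rcases h' with h | h
      · exact res_1442_mod_11880 h
      · exact res_7382_mod_11880 h
    · exact res_1982_mod_5940 h
    · exact res_2522_mod_5940 h
    · exact res_3062_mod_5940 h
    · exact res_3602_mod_5940 h
    · exact res_4142_mod_5940 h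
    · exact res_4682_mod_5940 h
    · exact res_5222_mod_5940 h
    · exact res_5762_mod_5940 h
  · exact res_470_mod_540 h

lemma half_classes {m : ℤ} (h : m % 6 = 0 ∨ m % 6 = 3 ∨ m % 18 = 1 ∨ m % 18 = 7 ∨ m % 18 = 8 ∨
    m % 18 = 2) : (S m).Infinite := by
  rcases h with h | h | h | h | h | h
  · exact res_0_mod_6 h
  · exact res_3_mod_6 h
  · exact res_1_mod_18 h
  · have h' : m % 54 = 7 ∨ m % 108 = 25 ∨ m % 108 = 79 ∨ m % 54 = 43 := by omega
    rcases h' with h | h | h | h
    · exact res_7_mod_54 h
    · exact res_25_mod_108 h
    · exact res_79_mod_108 h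
    · exact res_43_mod_54 h
  · exact res_8_mod_18 h
  · have h' : m % 108 = 2 ∨ m % 108 = 56 ∨ m % 54 = 20 ∨ m % 108 = 92 ∨ m % 108 = 38 := by omega
    rcases h' with h | h | h | h | h
    · exact res_2_mod_108 h
    · exact res_56_mod_108 h
    · exact res_20_mod_54 h
    · exact res_92_mod_108 h
    · exact hard_class h

theorem main_res (m : ℤ) (h4 : m % 9 ≠ 4) (h5 : m % 9 ≠ 5) : (S m).Infinite := by
  have h : (m % 6 = 0 ∨ m % 6 = 3 ∨ m % 18 = 1 ∨ m % 18 = 7 ∨ m % 18 = 8 ∨ m % 18 = 2) ∨
      ((-m) % 6 = 0 ∨ (-m) % 6 = 3 ∨ (-m) % 18 = 1 ∨ (-m) % 18 = 7 ∨ (-m) % 18 = 8 ∨ (-m) % 18 = 2) := by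
    omega
  rcases h with h | h
  · exact half_classes h
  · exact infinite_of_neg (half_classes h)


lemma cube9 (x : ℤ) : (x % 3 = 0 ∧ x ^ 3 % 9 = 0) ∨ (x % 3 = 1 ∧ x ^ 3 % 9 = 1) ∨
    (x % 3 = 2 ∧ x ^ 3 % 9 = 8) := by
  obtain ⟨q, hq⟩ : ∃ q, q = x / 3 := ⟨_, rfl⟩
  have h3 : x % 3 = 0 ∨ x % 3 = 1 ∨ x % 3 = 2 := by omega
  rcases h3 with h | h | h
  · left
    have : x = 3 * q := by omega
    refine ⟨h, ?_⟩
    have e : x ^ 3 = 9 * (3 * q ^ 3) := by rw [this]; ring
    omega
  · right; left
    have : x = 3 * q + 1 := by omega
    refine ⟨h, ?_⟩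
    have e : x ^ 3 = 9 * (3 * q ^ 3 + 3 * q ^ 2 + q) + 1 := by rw [this]; ring
    omega
  · right; right
    have : x = 3 * q + 2 := by omega
    refine ⟨h, ?_⟩
    have e : x ^ 3 = 9 * (3 * q ^ 3 + 6 * q ^ 2 + 4 * q) + 8 := by rw [this]; ring
    omega

lemma residues {x y z w m : ℤ} (h : x ^ 3 + y ^ 3 + z ^ 3 + w ^ 3 = m) (hm : m % 9 = 4 ∨ m % 9 = 5) :
    (x % 3 = 1 ∧ y % 3 = 1 ∧ z % 3 = 1 ∧ w % 3 = 1) ∨
      (x % 3 = 2 ∧ y % 3 = 2 ∧ z % 3 = 2 ∧ w % 3 = 2) := by
  have hx := cube9 x
  have hy := cube9 y
  have hz := cube9 z
  have hw := cube9 w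
  omega

lemma not_isSquare_of_mod_three {D : ℤ} (h : D % 3 = 2) : ¬ IsSquare D := by
  rintro ⟨k, rfl⟩
  obtain ⟨q, hq⟩ : ∃ q, q = k / 3 := ⟨_, rfl⟩
  have h3 : k = 3 * q ∨ k = 3 * q + 1 ∨ k = 3 * q + 2 := by omega
  rcases h3 with h' | h' | h'
  · have : k * k = 3 * (3 * q ^ 2) := by rw [h']; ring
    omega
  · have : k * k = 3 * (3 * q ^ 2 + 2 * q) + 1 := by rw [h']; ring
    omega
  · have : k * k = 3 * (3 * q ^ 2 + 4 * q + 1) + 1 := by rw [h']; ring
    omega

lemma pair_nonsquare {x y z w m : ℤ} (h : x ^ 3 + y ^ 3 + z ^ 3 + w ^ 3 = m)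
    (hm : m % 9 = 4 ∨ m % 9 = 5) : ¬ IsSquare (-((x + y) * (z + w))) := by
  apply not_isSquare_of_mod_three
  obtain ⟨a, ha⟩ : ∃ a, a = (x + y) / 3 := ⟨_, rfl⟩
  obtain ⟨b, hb⟩ : ∃ b, b = (z + w) / 3 := ⟨_, rfl⟩
  rcases residues h hm with h' | h'
  · have e1 : x + y = 3 * a + 2 := by omega
    have e2 : z + w = 3 * b + 2 := by omega
    have : -((x + y) * (z + w)) = 3 * (-(3 * a * b + 2 * a + 2 * b + 2)) + 2 := by rw [e1, e2]; ring
    omega
  · have e1 : x + y = 3 * a + 1 := by omega
    have e2 : z + w = 3 * b + 1 := by omega
    have : -((x + y) * (z + w)) = 3 * (-(3 * a * b + a + b + 1)) + 2 := by rw [e1, e2]; ring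
    omega

lemma cube_add_pos {a b : ℤ} (h : 0 < a + b) : 0 < a ^ 3 + b ^ 3 := by
  have h1 : -b < a := by linarith
  have h2 : (-b) ^ 3 < a ^ 3 := (Odd.strictMono_pow (by decide : Odd 3)) h1
  have h3 : (-b) ^ 3 = -(b ^ 3) := by ring
  linarith

lemma le_cube {a : ℤ} (h : 0 ≤ a) : a ≤ a ^ 3 := by
  rcases eq_or_lt_of_le h with h0 | h0
  · rw [← h0]; norm_num
  · have h1 : 1 ≤ a := h0
    nlinarith [mul_nonneg h (by linarith : 0 ≤ a - 1), mul_nonneg (mul_nonneg h h) (by linarith : 0 ≤ a - 1)]

lemma three_nonneg {y z w : ℤ} (h1 : 0 < y + z) (h2 : 0 < y + w) (h3 : 0 < z + w) :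
    0 ≤ y ^ 3 + z ^ 3 + w ^ 3 := by
  rcases le_or_gt 0 w with h | h
  · have := cube_add_pos h1
    have : 0 ≤ w ^ 3 := by positivity
    linarith
  · have := cube_add_pos h2
    have hz : 0 ≤ z := by linarith
    have : 0 ≤ z ^ 3 := by positivity
    linarith

lemma bound_pos {x y z w m : ℤ} (h : x ^ 3 + y ^ 3 + z ^ 3 + w ^ 3 = m) (h1 : 0 < x + y)
    (h2 : 0 < x + z) (h3 : 0 < x + w) (h4 : 0 < y + z) (h5 : 0 < y + w) (h6 : 0 < z + w) :
    |x| ≤ m := by
  rcases le_or_gt 0 x with hx | hx
  · rw [abs_of_nonneg hx]
    have := three_nonneg h4 h5 h6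
    have := le_cube hx
    linarith
  · rw [abs_of_neg hx]
    have e1 := cube_add_pos h1
    have hz : 0 ≤ z := by linarith
    have := le_cube hz
    have hw : 0 ≤ w := by linarith
    have : 0 ≤ w ^ 3 := by positivity
    linarith

lemma bound_deg {x z m : ℤ} (h : 2 * (x ^ 3 + z ^ 3) = m) (hm : m ≠ 0) (hneg : x * z < 0) :
    |x| ≤ |m| := by
  have h1 : m = (x + z) * (2 * (x ^ 2 - x * z + z ^ 2)) := by rw [← h]; ring
  have h2 : x + z ≠ 0 := by
    intro h0; apply hm; rw [h1, h0]; ring
  have h3 : 1 ≤ |x + z| := Int.one_le_abs h2
  have h4 : 0 ≤ 2 * (x ^ 2 - x * z + z ^ 2) := by nlinarith [sq_nonneg x, sq_nonneg z]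
  have h5 : 2 * (x ^ 2 - x * z + z ^ 2) ≤ |m| := by
    rw [h1, abs_mul, abs_of_nonneg h4]
    nlinarith
  have h6 : |x| ≤ x ^ 2 := by
    rw [← sq_abs]
    have hx0 : x ≠ 0 := by rintro rfl; simp at hneg
    have := Int.one_le_abs hx0
    nlinarith
  nlinarith [sq_nonneg x, sq_nonneg z]

lemma bound_all {x y z w m : ℤ} (h : x ^ 3 + y ^ 3 + z ^ 3 + w ^ 3 = m) (hm : m % 9 = 4 ∨ m % 9 = 5)
    (hall : ∀ a b c d : ℤ, a ^ 3 + b ^ 3 + c ^ 3 + d ^ 3 = m → (a + b) * (c + d) < 0 → a = b ∧ c = d) :
    |x| ≤ |m| := by
  have hm0 : m ≠ 0 := by rintro rfl; omega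
  have hres := residues h hm
  by_cases h1 : (x + y) * (z + w) < 0
  · obtain ⟨e1, e2⟩ := hall x y z w h h1
    subst e1; subst e2
    exact bound_deg (z := z) (by linarith) hm0 (by nlinarith)
  by_cases h2 : (x + z) * (y + w) < 0
  · obtain ⟨e1, e2⟩ := hall x z y w (by linarith) h2
    subst e1; subst e2
    exact bound_deg (z := y) (by linarith) hm0 (by nlinarith)
  by_cases h3 : (x + w) * (y + z) < 0
  · obtain ⟨e1, e2⟩ := hall x w y z (by linarith) h3
    subst e1; subst e2
    exact bound_deg (z := y) (by linarith) hm0 (by nlinarith)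
  have n1 : x + y ≠ 0 := by omega
  have n2 : x + z ≠ 0 := by omega
  have n3 : x + w ≠ 0 := by omega
  have n4 : y + z ≠ 0 := by omega
  have n5 : y + w ≠ 0 := by omega
  have n6 : z + w ≠ 0 := by omega
  have p1 : 0 < (x + y) * (z + w) := lt_of_le_of_ne (by linarith) (mul_ne_zero n1 n6).symm
  have p2 : 0 < (x + z) * (y + w) := lt_of_le_of_ne (by linarith) (mul_ne_zero n2 n5).symm
  have p3 : 0 < (x + w) * (y + z) := lt_of_le_of_ne (by linarith) (mul_ne_zero n3 n4).symm
  rcases lt_or_gt_of_ne n1 with q | q
  · have q6 : z + w < 0 := by by_contra hc; push Not at hc; nlinarith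
    have hT : x + y + z + w < 0 := by linarith
    have q2 : x + z < 0 := by
      by_contra hc; push Not at hc
      have : 0 < y + w := by by_contra hd; push Not at hd; nlinarith
      linarith
    have q5 : y + w < 0 := by by_contra hc; push Not at hc; nlinarith
    have q3 : x + w < 0 := by
      by_contra hc; push Not at hc
      have : 0 < y + z := by by_contra hd; push Not at hd; nlinarith
      linarith
    have q4 : y + z < 0 := by by_contra hc; push Not at hc; nlinarith
    have := bound_pos (x := -x) (y := -y) (z := -z) (w := -w) (m := -m) (by linear_combination -h)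
      (by linarith) (by linarith) (by linarith) (by linarith) (by linarith) (by linarith)
    rw [abs_neg] at this
    linarith [neg_le_abs m]
  · have q6 : 0 < z + w := by by_contra hc; push Not at hc; nlinarith
    have hT : 0 < x + y + z + w := by linarith
    have q2 : 0 < x + z := by
      by_contra hc; push Not at hc
      have : y + w < 0 := by by_contra hd; push Not at hd; nlinarith
      linarith
    have q5 : 0 < y + w := by by_contra hc; push Not at hc; nlinarith
    have q3 : 0 < x + w := by
      by_contra hc; push Not at hc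
      have : y + z < 0 := by by_contra hd; push Not at hd; nlinarith
      linarith
    have q4 : 0 < y + z := by by_contra hc; push Not at hc; nlinarith
    have := bound_pos h q q2 q3 q4 q5 q6
    linarith [le_abs_self m]

theorem criterion (m : ℤ) (hm : m % 9 = 4 ∨ m % 9 = 5) :
    (S m).Infinite ↔ ∃ x y z w : ℤ, x ^ 3 + y ^ 3 + z ^ 3 + w ^ 3 = m ∧ (x + y) * (z + w) < 0 ∧
      (x ≠ y ∨ z ≠ w) := by
  constructor
  · intro hinf
    by_contra hcon
    push Not at hcon
    apply hinf
    have hall : ∀ a b c d : ℤ, a ^ 3 + b ^ 3 + c ^ 3 + d ^ 3 = m → (a + b) * (c + d) < 0 →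
        a = b ∧ c = d := by
      intro a b c d h1 h2
      exact hcon a b c d h1 h2
    have hfin : ((Set.Icc (-|m|) |m|) ×ˢ ((Set.Icc (-|m|) |m|) ×ˢ ((Set.Icc (-|m|) |m|) ×ˢ
        (Set.Icc (-|m|) |m|)))).Finite :=
      (Set.finite_Icc _ _).prod ((Set.finite_Icc _ _).prod ((Set.finite_Icc _ _).prod (Set.finite_Icc _ _)))
    apply hfin.subset
    rintro ⟨x, y, z, w⟩ hp
    have hp' : x ^ 3 + y ^ 3 + z ^ 3 + w ^ 3 = m := hp
    have b1 := bound_all hp' hm hall
    have b2 := bound_all (x := y) (y := x) (z := z) (w := w) (by linarith) hm hall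
    have b3 := bound_all (x := z) (y := x) (z := y) (w := w) (by linarith) hm hall
    have b4 := bound_all (x := w) (y := x) (z := y) (w := z) (by linarith) hm hall
    exact ⟨abs_le.1 b1, abs_le.1 b2, abs_le.1 b3, abs_le.1 b4⟩
  · rintro ⟨x, y, z, w, h, hneg, hne⟩
    exact infinite_of_nonsquare h hneg (pair_nonsquare h hm) hne


/-- For every integer `m`, the number of representations of `m` as an ordered sum of four
integer cubes is infinite if and only if `m` is not `4` or `5` modulo `9`, or `m` has one
representation in which the sum of the first two entries and the sum of the last two entries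
have opposite signs and which is not of the shape `(a, a, c, c)`. -/
theorem result (m : ℤ) :
    Set.Infinite {p : ℤ × ℤ × ℤ × ℤ |
      p.1 ^ 3 + p.2.1 ^ 3 + p.2.2.1 ^ 3 + p.2.2.2 ^ 3 = m} ↔
    (m % 9 ≠ 4 ∧ m % 9 ≠ 5) ∨
      ∃ x y z w : ℤ, x ^ 3 + y ^ 3 + z ^ 3 + w ^ 3 = m ∧ (x + y) * (z + w) < 0 ∧
        ¬ (x = y ∧ z = w) := by
  by_cases h : m % 9 = 4 ∨ m % 9 = 5
  · have h' : ¬ (m % 9 ≠ 4 ∧ m % 9 ≠ 5) := by omega
    rw [or_iff_right h']
    refine (criterion m h).trans ?_
    constructor
    · rintro ⟨x, y, z, w, h1, h2, h3⟩
      refine ⟨x, y, z, w, h1, h2, ?_⟩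
      rintro ⟨e1, e2⟩
      rcases h3 with h3 | h3
      · exact h3 e1
      · exact h3 e2
    · rintro ⟨x, y, z, w, h1, h2, h3⟩
      exact ⟨x, y, z, w, h1, h2, not_and_or.1 h3⟩
  · have h' : m % 9 ≠ 4 ∧ m % 9 ≠ 5 := by omega
    constructor
    · intro _
      exact Or.inl h'
    · intro _
      exact main_res m h'.1 h'.2

end Pool.Agent.Results.MP_30d25d_nt.Characterisation
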